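import Pool.Agent.MP_6072c5_lc.H71.Ops

/-! The Baire argument: a message mode in which everything can be read. -/

set_option linter.unusedSectionVars false
set_option synthInstance.maxSize 100000

namespace Pool.Agent.MP_6072c5_lc.H71

open Pool.Agent.MP_62ad46_lc.H18 Pool.Agent.MP_6072c5_lc.H80 Cardinal

variable {M : Type} [CommSemiring M] [LinearOrder M] [IsPA M]
variable {F : Set M} {b : Pre M} {C Ψ : Rel M} {j : M} {i : Bool}

/-- one step of the construction: below `modeOn p j t` the pair `l` can be made unreadable -/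
structure BStep (F : Set M) (C Ψ : Rel M) (j : M) (i : Bool) (a₀ : M) (p : Pre M) (t : M)
    (q : Pre M) (l : Lit M) (z g : M) (p' : Pre M) : Prop where
  hq : Ext F q (modeOn p j t)
  hl : l ∈ q.T
  un : ∀ r, Ext F r q → ∀ k₁ k₀, En r.T C k₁ k₀ → ¬ Rd (modeAt p j t) Ψ i (lit l) k₁ k₀
  wz : Wm (p.R j) (Facts p.T j) z
  pz : prt (!i) z
  sz : ∀ y, say t z y ↔ y = lit l
  ext : Ext F p' (unmode q j)
  hg : g ∈ Facts p'.T j
  ag : ap g z a₀
  rc : ∀ x, Wm (p'.R j) (Facts p'.T j) x → ∀ y, say t x y ↔ y = lit l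

theorem exists_bstep (hS : Sat (aleph 1) M) (hj0 : j ≠ 0) (a₀ : M) {p : Pre M} (hp : IsCond F p)
    (hn : ∀ t, ¬ RdDense F C p j t i Ψ) : ∃ t q l z g p', BStep F C Ψ j i a₀ p t q l z g p' := by
  obtain ⟨t, ht, ht'⟩ := exists_fresh_row hS (hp.cR j)
  have h := hn t
  simp only [RdDense, not_forall, not_exists, not_and] at h
  obtain ⟨q, hq, l, hl, un⟩ := h
  have hR : q.R j = p.R j := hq.cond.mR _ (hq.nm.Md (Or.inl rfl))
  have hu := unmode_cond hq.cond j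
  have hf : Free (unmode q j) j := fun m hm => hm.2
  obtain ⟨Y, hY⟩ := exists_single (lit l)
  obtain ⟨z, z1, z2, z3⟩ := rich hS (hp.cR j) (Facts.countable hq.cond.cT j) (hp.i3 j) ht ht' (!i) Y
  obtain ⟨s, hs⟩ := exists_single z
  obtain ⟨g, hg⟩ := exists_const s a₀
  obtain ⟨lf, l1, l2⟩ := fire hS hu hj0 hf (g := g)
    (fun x u u' h h' => ((hg x u).1 h).2.trans ((hg x u').1 h').2.symm)
    (LegalW.of_all fun x u h => by
      rw [(hs x).1 ((hg x u).1 h).1]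
      exact ⟨fun r hr => z1.1 r (hR.le hr), z1.2⟩)
  obtain ⟨c, hc⟩ := exists_lists hS (l2.cond.cR j) (Facts.countable l2.cond.cT j)
  have h3 := addR_ext l2.cond (j := j) hf (Y := Y) ht (fun Y c h => ht' Y c (hR.le h)) hc
  refine ⟨t, q, l, z, g, _, hq, hl, un, z1.anti subset_rfl (Facts.mono hq.T j), z2,
    fun y => (z3 y).trans (hY y), h3.trans l2, ⟨lf, Or.inr rfl, l1⟩,
    (hg _ _).2 ⟨(hs z).2 rfl, rfl⟩, fun x hx y => ?_⟩
  have := hx.1 _ (Or.inr ⟨rfl, rfl⟩)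
  rw [fail_iff, not_not] at this
  exact (this y).trans (hY y)

/-- the last part of the argument: a finite closed part of `r` is added to `q` -/
theorem BStep.read {a₀ t z g : M} {p q p' r : Pre M} {l : Lit M}
    (h : BStep F C Ψ j i a₀ p t q l z g p') (hr : Ext F r p') {Δ : Set (Lit M)} (hf : Δ.Finite)
    (hΔ : Δ ⊆ r.T) (hc : Closed r.Md Δ)
    (hL : ∀ G ∈ Facts Δ j, LegalW (fun x => Wm (p.R j) (Facts p.T j) x ∧
      ∀ y, say t x y ↔ y = lit l) j (p.R j) (Facts p.T j) G) : Ext F (addT q Δ) q := by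
  have he := hr.trans h.ext
  have hq := h.hq.cond
  have hm0 : modeAt p j t ∈ q.Md := h.hq.nm.Md (Or.inl rfl)
  have hu : q.T ∪ Δ ⊆ r.T := Set.union_subset he.T hΔ
  have key : ∀ m ∈ q.Md, m ∈ r.Md ∨ m = modeAt p j t := fun m hm => by
    by_cases e : m.j = j
    · exact Or.inr (hq.mfn m hm _ hm0 e)
    · exact Or.inl (he.nm.Md ⟨hm, e⟩)
  refine addT_ext (addT_cond hq hf.countable
    (fun l hl l' hl' => hr.cond.fn l (hΔ hl) l' (hu hl'))
    (fun y b₀ b₁ hl => hr.cond.col y b₀ b₁ (hΔ hl))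
    (fun j G hG H hH => hr.cond.agr j G (Facts.mono hΔ j hG) H (Facts.mono hu j hH))
    (fun j G hG x hx => hr.cond.i1 j G (Facts.mono hΔ j hG) x (he.nm.R j hx))
    (fun m hm G hG => ?_) fun l' hl' => ?_)
    fun j' hj G hG => he.nm.e1 j' (hj.anti fun _ h => h.1) G (Facts.mono hΔ j' hG)
  · rcases key m hm with hm | rfl
    · exact hr.cond.mL m hm G (Facts.mono hΔ _ hG)
    · exact (hL G hG).mono (fun _ _ _ h => h.1) subset_rfl subset_rfl
  · obtain ⟨Γ, g1, g2, g3, g4⟩ := hq.fc l h.hl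
    refine ⟨Γ ∪ Δ, g1.union hf, Set.union_subset_union_left _ g2, Or.inr hl', ?_⟩
    rintro l'' (hl'' | hl'') y hy
    · exact (g4 l'' hl'' y hy).imp fun _ h => ⟨Or.inl h.1, h.2⟩
    · obtain ⟨m, hm, G, x, u, a1, a2, a3, a4⟩ := hy
      rcases key m hm with hm | rfl
      · exact (hc l'' hl'' y ⟨m, hm, G, x, u, a1, a2, a3, a4⟩).imp fun _ h => ⟨Or.inr h.1, h.2⟩
      · rcases (hL G ⟨l'', hl'', a1⟩).old a2 with h1 | h1
        · exact ⟨l, Or.inl g3, (h1.2 y).1 a4⟩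
        · exact absurd a3 h1.not_wm

theorem exists_stage {α : Type} {S : Set α} (hS : S.Finite) {P : ℕ → α → Prop}
    (hP : ∀ n m x, n ≤ m → P n x → P m x) (h : ∀ x ∈ S, ∃ n, P n x) : ∃ N, ∀ x ∈ S, P N x := by
  choose! f hf using h
  obtain ⟨N, hN⟩ := (hS.image f).bddAbove
  exact ⟨N, fun x hx => hP _ _ _ (hN ⟨x, hx, rfl⟩) (hf x hx)⟩

theorem baire_seq (hS : Sat (aleph 1) M) (hj0 : j ≠ 0) {a₀ : M} {p q : ℕ → Pre M} {t z g : ℕ → M}
    {l : ℕ → Lit M} (hb : IsCond F (p 0)) (hj : j ∈ (p 0).Z) (ha : En1 (p 0).T C false a₀)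
    (h : ∀ n, BStep F C Ψ j i a₀ (p n) (t n) (q n) (l n) (z n) (g n) (p (n + 1))) :
    ∃ s, Ext F s (p 0) ∧ Div F C j i Ψ s := by
  have h0 : ∀ n, IsCond F (p n) ∧ j ∈ (p n).Z := fun n => by
    cases n with
    | zero => exact ⟨hb, hj⟩
    | succ n => exact ⟨(h n).ext.cond, (h n).ext.nm.Z (Or.inl rfl)⟩
  have he : ∀ n, Ext F (p (n + 1)) (p n) := fun n =>
    (h n).ext.trans (unmode_ext (h0 n).1 (h0 n).2 (h n).hq)
  have le : ∀ {n m}, n ≤ m → Ext F (p m) (p n) := fun h => ext_le hb he h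
  have anti : ∀ {n m x}, n ≤ m → Wm ((p m).R j) (Facts (p m).T j) x →
      Wm ((p n).R j) (Facts (p n).T j) x := fun h hx =>
    hx.anti ((le h).nm.R j) (Facts.mono (le h).T j)
  have hg : ∀ {n m}, n < m → g n ∈ Facts (p m).T j := fun hn => Facts.mono (le hn).T j (h _).hg
  obtain ⟨K, K1, -, K3⟩ := block hS (fun n => (p n).R j) (fun n => Facts (p n).T j)
    (fun n => (h0 n).1.cR j) (fun n => Facts.countable (h0 n).1.cT j) z (!i) (fun n => (h n).pz)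
    fun k n hk => anti hk (h n).wz
  obtain ⟨GK, hGK⟩ := exists_const K a₀
  have hlim := lim_ext hb he
  have hL : ∀ k, LegalW (fun x => Wm ((p k).R j) (Facts (p k).T j) x ∧
      ∀ y, say (t k) x y ↔ y = lit (l k)) j ((p k).R j) (Facts (p k).T j) GK := fun k => by
    refine ⟨∅, g '' Set.Iio k, Set.finite_empty, (Set.finite_Iio k).image g, Set.empty_subset _,
      ?_, fun x u hx => ?_⟩
    · rintro _ ⟨n, hn, rfl⟩
      exact hg hn
    · obtain ⟨h1, rfl⟩ := (hGK x u).1 hx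
      rcases K3 (k + 1) x h1 with h2 | ⟨n, hn, rfl⟩
      · exact Or.inl ⟨anti (Nat.le_succ k) h2, (h k).rc x h2⟩
      · rcases Nat.lt_succ_iff_lt_or_eq.1 hn with hn | rfl
        · exact Or.inr (Or.inl ⟨g n, ⟨n, hn, rfl⟩, (h n).ag⟩)
        · exact Or.inl ⟨(h n).wz, (h n).sz⟩
  have hfl : Free (lim p) j := (hlim 0).cond.free_of_mem ⟨0, hj⟩
  obtain ⟨lK, k1, k2, -⟩ := exists_factLit hS hj0 GK (keys_countable (hlim 0).cond.cT)
  have hs : IsCond F (addT (lim p) {lK}) := by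
    refine fire_cond (hlim 0).cond hfl k1 k2
      (fun x u u' h h' => ((hGK x u).1 h).2.trans ((hGK x u').1 h').2.symm)
      (fun H hH x u u' h1 h2 => ?_) ?_
    · obtain ⟨k, -, hk⟩ := lim_fact hH 0
      exact ((hL k).old h1).elim (fun h => absurd h2 (h.1.2 H (hk k le_rfl) u'))
        fun h => (h0 k).1.old_agree h (hk k le_rfl) h2
    · rintro r ⟨k, hr⟩ x u h1 h2
      exact ((hL k).old h2).elim (fun h => absurd h1.1 (h.1.1 r hr))
        fun h => (h0 k).1.old_lv h hr h1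
  have hse : ∀ k, Ext F (addT (lim p) {lK}) (p k) := fun k => by
    refine ⟨hs, (hlim k).T.trans Set.subset_union_left, addT_nm (hlim k).nm fun j' _ G hG => ?_⟩
    obtain ⟨rfl, rfl⟩ := (facts_single k1).1 hG
    exact (hL k).mono (fun _ _ _ h => h.1) subset_rfl subset_rfl
  refine ⟨_, hse 0, K, ⟨GK, ⟨lK, Or.inr rfl, k1⟩, fun x hx =>
    ⟨a₀, (hGK x a₀).2 ⟨hx, rfl⟩, ha.mono (hse 0).T⟩⟩, ?_⟩
  rintro r hr ⟨k', a, b, k₁, k₀, h1, h2, G₁, ⟨l₁, a1, a2⟩, G₀, ⟨l₀, b1, b2⟩, h3⟩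
  obtain ⟨Δ₀, f0, s0, -, e0⟩ := h2.closed hS hr.cond
  obtain ⟨Δ, f, s1, s2, cl⟩ := hr.cond.closure ((f0.insert l₁).insert l₀)
    (Set.insert_subset b1 (Set.insert_subset a1 s0))
  have ev : ∀ G ∈ Facts Δ j, ∃ n, ∀ k, n ≤ k → LegalW (fun x => Wm ((p k).R j) (Facts (p k).T j) x ∧
      ∀ y, say (t k) x y ↔ y = lit (l k)) j ((p k).R j) (Facts (p k).T j) G := fun G hG => by
    obtain ⟨R₀, D₀, f1, f2, c1, c2, H⟩ := hr.nm.e1 j hfl G (Facts.mono s2 j hG)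
    obtain ⟨n, hn⟩ := exists_stage f1 (P := fun n x => x ∈ (p n).R j)
      (fun n m x hn hx => (le hn).nm.R j hx) fun x hx => c1 hx
    obtain ⟨n', hn'⟩ := exists_stage f2 (P := fun n x => x ∈ Facts (p n).T j ∨ x = GK)
      (fun n m x hn hx => hx.imp_left fun hx => Facts.mono (le hn).T j hx) fun x hx => by
        rcases facts_union.1 (c2 hx) with hx | hx
        · obtain ⟨k, -, hk⟩ := lim_fact hx 0
          exact ⟨k, Or.inl (hk k le_rfl)⟩
        · exact ⟨0, Or.inr ((facts_single k1).1 hx).2⟩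
    refine ⟨max n n', fun k hk => LegalW.trans (R' := R₀) (D' := D₀)
      ⟨R₀, D₀, f1, f2, subset_rfl, subset_rfl, H⟩ (fun x hx => ?_) (fun H hH => ?_)
      fun x hx hx' => absurd ((le ((le_max_left _ _).trans hk)).nm.R j (hn x hx)) hx'⟩
    · have := hx.anti ((hse (k + 1)).nm.R j) (Facts.mono (hse (k + 1)).T j)
      exact ⟨anti (Nat.le_succ k) this, (h k).rc x this⟩
    · rcases hn' H hH with hH | rfl
      · exact LegalW.self (Facts.mono (le ((le_max_right _ _).trans hk)).T j hH)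
      · exact hL k
  obtain ⟨k, hk⟩ := exists_stage (Facts.finite f j) (P := fun n G => ∀ k, n ≤ k →
      LegalW (fun x => Wm ((p k).R j) (Facts (p k).T j) x ∧ ∀ y, say (t k) x y ↔ y = lit (l k)) j
        ((p k).R j) (Facts (p k).T j) G) (fun n m x hn hx k hk => hx k (hn.trans hk)) ev
  have hk' := fun G hG => hk G hG k le_rfl
  have hq := (h k).read (hr.trans (hse (k + 1))) f s2 cl hk'
  have m1 : G₁ ∈ Facts Δ j := ⟨l₁, s1 (Or.inr (Or.inl rfl)), a2⟩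
  have m0 : G₀ ∈ Facts Δ j := ⟨l₀, s1 (Or.inl rfl), b2⟩
  obtain ⟨U, hU⟩ := exists_union G₁ G₀
  obtain ⟨g', hg'⟩ := exists_restrict U (P := prt i) (by exact ArI.out)
  have hm : ∀ x u, ap g' x u → ∃ G ∈ Facts r.T j, ap G x u := fun x u hx =>
    ((hU _).1 ((hg' x u).1 hx).1).elim (fun h => ⟨G₁, ⟨l₁, a1, a2⟩, h⟩)
      fun h => ⟨G₀, ⟨l₀, b1, b2⟩, h⟩
  refine (h k).un _ hq k₁ k₀ (e0.mono fun x hx => Or.inr (s1 (Or.inr (Or.inr hx))))
    ⟨k', K, a, b, g', z k, h1, K1 k, (h k).pz, (h k).wz, ((h k).sz _).2 rfl,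
      ⟨fun x hx => (h3.1 x hx).imp_right ?_, h3.2.1, fun y hy hy' => ?_⟩,
      fun x u hx => ((hg' x u).1 hx).2, fun x u u' c1 c2 => ?_, ?_⟩
  · rintro ⟨y, u, c1, c2, c3, c4⟩
    exact ⟨y, u, c1, c2, (hg' y u).2 ⟨(hU _).2 (Or.inl c3), c2⟩, c4⟩
  · obtain ⟨u, c3, c4⟩ := h3.2.2 y hy hy'
    exact ⟨u, (hg' y u).2 ⟨(hU _).2 (Or.inr c3), hy'⟩, c4⟩
  · obtain ⟨G, d1, d2⟩ := hm x u c1
    obtain ⟨G', d3, d4⟩ := hm x u' c2
    exact hr.cond.agr j G d1 G' d3 x u u' d2 d4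
  · exact ((hk' G₁ m1).union (hk' G₀ m0) fun x u hx => (hU _).1 ((hg' x u).1 hx).1).mono
      (fun _ _ _ h => ⟨h.1, (h.2 _).2 rfl⟩) subset_rfl subset_rfl

theorem baire (hS : Sat (aleph 1) M) (hb : IsCond F b) (hj : j ∈ b.Z) (hj0 : j ≠ 0) {a₀ : M}
    (ha : En1 b.T C false a₀) (hD : ∀ q, Ext F q b → ¬ Div F C j i Ψ q) :
    ∃ b' t, Ext F b' b ∧ RdDense F C b' j t i Ψ := by
  by_contra hn
  have st : ∀ p : {p // Ext F p b}, ∃ t q l z g, ∃ p' : {p // Ext F p b},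
      BStep F C Ψ j i a₀ p.1 t q l z g p'.1 := fun p => by
    obtain ⟨t, q, l, z, g, p', h⟩ := exists_bstep (C := C) (Ψ := Ψ) (i := i) hS hj0 a₀ p.2.cond
      fun t ht => hn ⟨p.1, t, p.2, ht⟩
    exact ⟨t, q, l, z, g,
      ⟨p', (h.ext.trans (unmode_ext p.2.cond (p.2.nm.Z hj) h.hq)).trans p.2⟩, h⟩
  choose t q l z g nx h using st
  let s : ℕ → {p // Ext F p b} := fun n => Nat.rec ⟨b, Ext.refl hb⟩ (fun _ p => nx p) n
  obtain ⟨r, h1, h2⟩ := baire_seq (p := fun n => (s n).1) hS hj0 hb hj ha fun n => h (s n)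
  exact hD r h1 h2

end Pool.Agent.MP_6072c5_lc.H71
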