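import Pool.Agent.MP_6072c5_lc.H71.SatL

/-! Basic properties of conditions. -/

set_option linter.unusedSectionVars false
set_option synthInstance.maxSize 100000

namespace Pool.Agent.MP_6072c5_lc.H71

open Pool.Agent.MP_62ad46_lc.H18 Pool.Agent.MP_6072c5_lc.H80 Cardinal

variable {M : Type} [CommSemiring M] [LinearOrder M] [IsPA M]

section sets
variable {T T' Δ : Set (Lit M)} {j G G' H z u u' y : M} {R R' D D' : Set M} {W W' : M → Prop}
  {Md Md' : Set (Mode M)} {l : Lit M}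

theorem Facts.mono (h : T ⊆ T') (j : M) : Facts T j ⊆ Facts T' j :=
  fun _ ⟨l, hl, h'⟩ => ⟨l, h hl, h'⟩

theorem facts_union : G ∈ Facts (T ∪ Δ) j ↔ G ∈ Facts T j ∨ G ∈ Facts Δ j := by
  constructor
  · rintro ⟨l, hl | hl, h⟩
    · exact Or.inl ⟨l, hl, h⟩
    · exact Or.inr ⟨l, hl, h⟩
  · rintro (⟨l, hl, h⟩ | ⟨l, hl, h⟩)
    · exact ⟨l, Or.inl hl, h⟩
    · exact ⟨l, Or.inr hl, h⟩

theorem facts_sub_iUnion (T : Set (Lit M)) (j : M) :
    Facts T j ⊆ ⋃ l ∈ T, {G | IsFact l j G} := fun _ ⟨_, hl, h⟩ => Set.mem_biUnion hl h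

theorem isFact_subsingleton (l : Lit M) (j : M) : {G | IsFact l j G}.Subsingleton :=
  fun _ h _ h' => (IsFact.unique h h').2

theorem Facts.countable (h : T.Countable) (j : M) : (Facts T j).Countable :=
  (h.biUnion fun l _ => (isFact_subsingleton l j).countable).mono (facts_sub_iUnion T j)

theorem Facts.finite (h : T.Finite) (j : M) : (Facts T j).Finite :=
  (h.biUnion fun l _ => (isFact_subsingleton l j).finite).subset (facts_sub_iUnion T j)

theorem keys_eq (T : Set (Lit M)) : keys T = Prod.fst '' T := rfl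

theorem keys_mono (h : T ⊆ T') : keys T ⊆ keys T' := fun _ ⟨l, hl, h'⟩ => ⟨l, h hl, h'⟩

theorem keys_countable (h : T.Countable) : (keys T).Countable := h.image _

theorem keys_finite (h : T.Finite) : (keys T).Finite := h.image _

theorem mem_keys (h : l ∈ T) : l.1 ∈ keys T := ⟨l, h, rfl⟩

theorem Wm.anti (h : Wm R' D' z) (hR : R ⊆ R') (hD : D ⊆ D') : Wm R D z :=
  ⟨fun r hr => h.1 r (hR hr), fun G hG => h.2 G (hD hG)⟩

theorem Old.mono (h : Old j R D z u) (hR : R ⊆ R') (hD : D ⊆ D') : Old j R' D' z u :=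
  h.imp (fun ⟨H, h1, h2⟩ => ⟨H, hD h1, h2⟩) fun ⟨r, h1, h2⟩ => ⟨r, hR h1, h2⟩

theorem Old.not_wm (h : Old j R D z u) : ¬ Wm R D z := fun hw =>
  h.elim (fun ⟨H, h1, h2⟩ => hw.2 H h1 u h2) fun ⟨r, h1, h2⟩ => hw.1 r h1 h2.1.1

theorem LegalW.old (h : LegalW W j R D G) (ha : ap G z u) : W z ∨ Old j R D z u := by
  obtain ⟨R₀, D₀, -, -, h1, h2, h3⟩ := h
  exact (h3 z u ha).imp_right fun h => h.mono h1 h2

theorem LegalW.mono (h : LegalW W j R D G) (hW : ∀ z u, ap G z u → W z → W' z) (hR : R ⊆ R')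
    (hD : D ⊆ D') : LegalW W' j R' D' G := by
  obtain ⟨R₀, D₀, f1, f2, h1, h2, h3⟩ := h
  exact ⟨R₀, D₀, f1, f2, h1.trans hR, h2.trans hD, fun z u ha => (h3 z u ha).imp_left (hW z u ha)⟩

theorem LegalW.sub (h : LegalW W j R D G) (hG : ∀ z a, ap G' z a → ap G z a) :
    LegalW W j R D G' := by
  obtain ⟨R₀, D₀, f1, f2, h1, h2, h3⟩ := h
  exact ⟨R₀, D₀, f1, f2, h1, h2, fun z u ha => h3 z u (hG z u ha)⟩

theorem LegalW.self (h : G ∈ D) : LegalW W j R D G :=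
  ⟨∅, {G}, Set.finite_empty, Set.finite_singleton _, Set.empty_subset _,
    Set.singleton_subset_iff.2 h, fun _ _ ha => Or.inr (Or.inl ⟨G, rfl, ha⟩)⟩

theorem LegalW.of_all (h : ∀ z u, ap G z u → W z) : LegalW W j R D G :=
  ⟨∅, ∅, Set.finite_empty, Set.finite_empty, Set.empty_subset _, Set.empty_subset _,
    fun z u ha => Or.inl (h z u ha)⟩

theorem LegalW.union (h : LegalW W j R D G) (h' : LegalW W j R D G')
    (hH : ∀ z a, ap H z a → ap G z a ∨ ap G' z a) : LegalW W j R D H := by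
  obtain ⟨R₀, D₀, f1, f2, h1, h2, h3⟩ := h
  obtain ⟨R₁, D₁, g1, g2, k1, k2, k3⟩ := h'
  refine ⟨R₀ ∪ R₁, D₀ ∪ D₁, f1.union g1, f2.union g2, Set.union_subset h1 k1,
    Set.union_subset h2 k2, fun z u ha => ?_⟩
  rcases hH z u ha with ha | ha
  · exact (h3 z u ha).imp_right fun h => h.mono Set.subset_union_left Set.subset_union_left
  · exact (k3 z u ha).imp_right fun h => h.mono Set.subset_union_right Set.subset_union_right

/-- legality passes to an earlier stage -/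
theorem LegalW.trans (h : LegalW W' j R' D' G) (hW : ∀ z, W' z → W z)
    (hD : ∀ H ∈ D', LegalW W j R D H) (hR : ∀ r ∈ R', r ∉ R → ∀ z, lay r z → W z) :
    LegalW W j R D G := by
  classical
  obtain ⟨R₀, D₀, f1, f2, h1, h2, h3⟩ := h
  choose! a b ha hb ha' hb' hab using hD
  refine ⟨(R₀ ∩ R) ∪ ⋃ H ∈ D₀, a H, ⋃ H ∈ D₀, b H,
    (f1.inter_of_left _).union (f2.biUnion fun H hH => ha H (h2 hH)),
    f2.biUnion fun H hH => hb H (h2 hH),
    Set.union_subset Set.inter_subset_right (Set.iUnion₂_subset fun H hH => ha' H (h2 hH)),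
    Set.iUnion₂_subset fun H hH => hb' H (h2 hH), fun z u hz => ?_⟩
  rcases h3 z u hz with h | ⟨H, hH, h⟩ | ⟨r, hr, h⟩
  · exact Or.inl (hW z h)
  · exact (hab H (h2 hH) z u h).imp_right fun h => h.mono
      ((Set.subset_biUnion_of_mem (u := a) hH).trans Set.subset_union_right)
      (Set.subset_biUnion_of_mem (u := b) hH)
  · by_cases hr' : r ∈ R
    · exact Or.inr (Or.inr ⟨r, Or.inl ⟨hr, hr'⟩, h⟩)
    · exact Or.inl (hR r (h1 hr) hr' z h.1)

theorem Agree.symm (h : Agree G H) : Agree H G := fun z u u' h1 h2 => (h z u' u h2 h1).symm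

theorem Agree.sub {H' : M} (h : Agree G H) (hG : ∀ z a, ap G' z a → ap G z a)
    (hH : ∀ z a, ap H' z a → ap H z a) : Agree G' H' :=
  fun z u u' h1 h2 => h z u u' (hG z u h1) (hH z u' h2)

theorem Says.mono (h : Says Md l y) (hM : Md ⊆ Md') : Says Md' l y := by
  obtain ⟨m, hm, h⟩ := h
  exact ⟨m, hM hm, h⟩

theorem Closed.anti (h : Closed Md' Δ) (hM : Md ⊆ Md') : Closed Md Δ :=
  fun l hl y hy => h l hl y (hy.mono hM)

theorem Closed.union (h : Closed Md T) (h' : Closed Md Δ) : Closed Md (T ∪ Δ) := by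
  rintro l (hl | hl) y hy
  · obtain ⟨l', h1, h2⟩ := h l hl y hy
    exact ⟨l', Or.inl h1, h2⟩
  · obtain ⟨l', h1, h2⟩ := h' l hl y hy
    exact ⟨l', Or.inr h1, h2⟩

theorem Closed.inter (h : Closed Md T) (h' : Closed Md Δ) : Closed Md (T ∩ Δ) := by
  rintro l ⟨h1, h2⟩ y hy
  obtain ⟨l', a1, a2⟩ := h l h1 y hy
  obtain ⟨l'', b1, b2⟩ := h' l h2 y hy
  obtain rfl := lit_inj (a2.symm.trans b2)
  exact ⟨l', ⟨a1, b1⟩, a2⟩

theorem Closed.mem {l' : Lit M} (h : Closed Md T) (hl : l ∈ T) (hy : Says Md l (lit l')) :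
    l' ∈ T := by
  obtain ⟨l'', h1, h2⟩ := h l hl _ hy
  exact lit_inj h2 ▸ h1

theorem closed_biUnion {ι : Type} {I : Set ι} {S : ι → Set (Lit M)}
    (h : ∀ i ∈ I, Closed Md (S i)) : Closed Md (⋃ i ∈ I, S i) := by
  intro l hl y hy
  obtain ⟨i, hi, hl⟩ := Set.mem_iUnion₂.1 hl
  obtain ⟨l', h1, h2⟩ := h i hi l hl y hy
  exact ⟨l', Set.mem_biUnion hi h1, h2⟩

theorem closed_single (h : ∀ y, ¬ Says Md l y) : Closed Md {l} := by
  rintro l' rfl y hy
  exact absurd hy (h y)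

theorem not_says_col {v : M} {c : Bool × Bool} : ¬ Says Md (pr 0 v, c) y :=
  fun ⟨_, _, _, _, _, h, _⟩ => IsFact.not_col h

theorem not_says_neg {v : M} {b : Bool} : ¬ Says Md (v, b, b) y :=
  fun ⟨_, _, _, _, _, h, _⟩ => IsFact.not_neg h

theorem Ev.mono {a b : M} (h : Ev T a b) (hT : T ⊆ T') : Ev T' a b := by
  refine ⟨fun x hx => ?_, fun v => ⟨fun hv => ?_, fun hv => ?_⟩⟩
  · obtain ⟨v, c, h | h⟩ := h.1 x hx
    · exact ⟨v, c, Or.inl ⟨h.1, hT h.2⟩⟩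
    · exact ⟨v, c, Or.inr ⟨h.1, hT h.2⟩⟩
  · exact ((h.2 v).1 hv).imp fun c hc => hT hc
  · exact ((h.2 v).2 hv).imp fun c hc => hT hc

theorem En.mono {C : Rel M} {k₁ k₀ : M} (h : En T C k₁ k₀) (hT : T ⊆ T') : En T' C k₁ k₀ := by
  obtain ⟨a, b, h1, h2⟩ := h
  exact ⟨a, b, h1, h2.mono hT⟩

theorem En1.mono {C : Rel M} {e : Bool} {w : M} (h : En1 T C e w) (hT : T ⊆ T') :
    En1 T' C e w := by
  obtain ⟨a, b, h1, h2⟩ := h
  exact ⟨a, b, h1.mono hT, h2⟩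

theorem PEv.mono {C Ψ : Rel M} {i : Bool} {K : M} (h : PEv T C j i Ψ K) (hT : T ⊆ T') :
    PEv T' C j i Ψ K := by
  obtain ⟨k, a, b, k₁, k₀, h1, h2, G₁, h3, G₀, h4, h5⟩ := h
  exact ⟨k, a, b, k₁, k₀, h1, h2.mono hT, G₁, Facts.mono hT _ h3, G₀, Facts.mono hT _ h4, h5⟩

theorem Ev.finite (hS : Sat (aleph 1) M) (hT : T.Countable) {a b : M} (h : Ev T a b) :
    ∃ Γ, Γ.Finite ∧ Γ ⊆ T ∧ Ev Γ a b := by
  obtain ⟨u, hu⟩ := exists_union a b
  obtain ⟨r₀, h0⟩ := exists_row 0 u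
  obtain ⟨r₁, h1⟩ := exists_row 1 u
  obtain ⟨k, hk⟩ := exists_union r₀ r₁
  have hsub : {v | mem v k} ⊆ keys T := by
    intro v hv
    rcases (hk v).1 hv with hv | hv
    · rcases (hu _).1 ((h0 v).1 hv) with hv | hv
      · obtain ⟨v', c, ⟨e, h⟩ | ⟨e, h⟩⟩ := h.1 _ hv
        · exact ⟨_, h, (pr_inj.1 e).2.symm⟩
        · exact absurd (pr_inj.1 e).1 zero_ne_one
      · obtain ⟨c, hc⟩ := (h.2 v).1 hv
        exact ⟨_, hc, rfl⟩
    · rcases (hu _).1 ((h1 v).1 hv) with hv | hv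
      · obtain ⟨v', c, ⟨e, h⟩ | ⟨e, h⟩⟩ := h.1 _ hv
        · exact absurd (pr_inj.1 e).1 one_ne_zero
        · exact ⟨_, h, (pr_inj.1 e).2.symm⟩
      · obtain ⟨c, hc⟩ := (h.2 v).2 hv
        exact ⟨_, hc, rfl⟩
  have hfin := finite_of_countable hS ((keys_countable hT).mono hsub)
  refine ⟨T ∩ {v | mem v k} ×ˢ Set.univ, (hfin.prod Set.finite_univ).inter_of_right _,
    Set.inter_subset_left, fun x hx => ?_, fun v => ⟨fun hv => ?_, fun hv => ?_⟩⟩
  · obtain ⟨v, c, ⟨rfl, h⟩ | ⟨rfl, h⟩⟩ := h.1 x hx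
    · exact ⟨v, c, Or.inl ⟨rfl, h, (hk v).2 (Or.inl ((h0 v).2 ((hu _).2 (Or.inl hx)))), trivial⟩⟩
    · exact ⟨v, c, Or.inr ⟨rfl, h, (hk v).2 (Or.inr ((h1 v).2 ((hu _).2 (Or.inl hx)))), trivial⟩⟩
  · exact ((h.2 v).1 hv).imp fun c hc =>
      ⟨hc, (hk v).2 (Or.inl ((h0 v).2 ((hu _).2 (Or.inr hv)))), trivial⟩
  · exact ((h.2 v).2 hv).imp fun c hc =>
      ⟨hc, (hk v).2 (Or.inr ((h1 v).2 ((hu _).2 (Or.inr hv)))), trivial⟩

end sets

variable {F : Set M} {p q r b : Pre M}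

section cond
variable {j G H z u u' y : M} {l l' : Lit M} {Δ Γ : Set (Lit M)}

theorem IsCond.old_agree (hp : IsCond F p) (h : Old j (p.R j) (Facts p.T j) z u)
    (hH : H ∈ Facts p.T j) (ha : ap H z u') : u = u' := by
  rcases h with ⟨G, hG, h⟩ | ⟨r, hr, h1, h2⟩
  · exact hp.agr j G hG H hH z u u' h ha
  · exact lv_unique h2 (hp.i1 j H hH r hr z u' h1 ha)

theorem IsCond.old_lv (hp : IsCond F p) (h : Old j (p.R j) (Facts p.T j) z u) {r : M}
    (hr : r ∈ p.R j) (hl : lay r z) : lv j r z u := by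
  rcases h with ⟨G, hG, h⟩ | ⟨r', hr', h1, h2⟩
  · exact hp.i1 j G hG r hr z u hl h
  · exact hp.dis j r' hr' r hr z h1 hl ▸ h2

theorem IsCond.old_old (hp : IsCond F p) (h : Old j (p.R j) (Facts p.T j) z u)
    (h' : Old j (p.R j) (Facts p.T j) z u') : u = u' := by
  rcases h' with ⟨G, hG, h'⟩ | ⟨r, hr, h1, h2⟩
  · exact hp.old_agree h hG h'
  · exact lv_unique (hp.old_lv h hr h1) h2

/-- outside the free part of a mode, a legal function has an old value -/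
theorem IsCond.mode_old (hp : IsCond F p) {m : Mode M} (hm : m ∈ p.Md)
    (h : Old m.j m.R m.D z u) : Old m.j (p.R m.j) (Facts p.T m.j) z u :=
  h.mono (hp.mR m hm).ge (hp.mD m hm)

theorem IsCond.closed (hp : IsCond F p) : Closed p.Md p.T := by
  intro l hl y hy
  obtain ⟨Δ, -, h1, h2, h3⟩ := hp.fc l hl
  obtain ⟨l', a, b⟩ := h3 l h2 y hy
  exact ⟨l', h1 a, b⟩

theorem IsCond.closure (hp : IsCond F p) (hf : Γ.Finite) (hΓ : Γ ⊆ p.T) :
    ∃ Δ, Δ.Finite ∧ Γ ⊆ Δ ∧ Δ ⊆ p.T ∧ Closed p.Md Δ := by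
  choose! c h1 h2 h3 h4 using hp.fc
  exact ⟨⋃ l ∈ Γ, c l, hf.biUnion fun l hl => h1 l (hΓ hl),
    fun l hl => Set.mem_biUnion hl (h3 l (hΓ hl)), Set.iUnion₂_subset fun l hl => h2 l (hΓ hl),
    closed_biUnion fun l hl => h4 l (hΓ hl)⟩

theorem IsCond.free_of_mem (hp : IsCond F p) (hj : j ∈ p.Z) : Free p j :=
  fun m hm e => hp.mZ m hm (e ▸ hj)

theorem IsCond.not_mem (hp : IsCond F p) (hl : l ∈ p.T) (hk : l.1 = l'.1) (hn : l ≠ l') :
    l' ∉ p.T := fun h => hn (hp.fn l hl l' h hk)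

theorem En.closed (hS : Sat (aleph 1) M) (hp : IsCond F p) {C : Rel M} {k₁ k₀ : M}
    (h : En p.T C k₁ k₀) : ∃ Δ, Δ.Finite ∧ Δ ⊆ p.T ∧ Closed p.Md Δ ∧ En Δ C k₁ k₀ := by
  obtain ⟨a, b, h1, h2⟩ := h
  obtain ⟨Γ, f, s, e⟩ := h2.finite hS hp.cT
  obtain ⟨Δ, f', s1, s2, c⟩ := hp.closure f s
  exact ⟨Δ, f', s2, c, a, b, h1, e.mono s1⟩

theorem En1.closed (hS : Sat (aleph 1) M) (hp : IsCond F p) {C : Rel M} {e : Bool} {w : M}
    (h : En1 p.T C e w) : ∃ Δ, Δ.Finite ∧ Δ ⊆ p.T ∧ Closed p.Md Δ ∧ En1 Δ C e w := by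
  obtain ⟨a, b, h1, h2⟩ := h
  obtain ⟨Δ, f, s, c, e⟩ := h1.closed hS hp
  exact ⟨Δ, f, s, c, a, b, e, h2⟩

/-- a fact of a column in mode has the same messages later -/
theorem says_mode (hq : IsCond F q) (h : p.Md ⊆ q.Md) {m : Mode M} (hm : m ∈ p.Md)
    (hl : IsFact l m.j G) (hy : Says q.Md l y) : Says p.Md l y := by
  obtain ⟨m', hm', G', z, u, h1, h2⟩ := hy
  obtain rfl := hq.mfn m' hm' m (h hm) (h1.unique hl).1
  exact ⟨m', hm, G', z, u, h1, h2⟩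

theorem says_nm (hq : IsCond F q) (h : NM p q) (hl : l ∈ p.T) (hy : Says q.Md l y) :
    Says p.Md l y := by
  obtain ⟨m, hm, G, z, u, h1, h2, h3, h4⟩ := id hy
  by_cases hf : Free p m.j
  · exact absurd h2 (h3.2 G (h.e3 m hm hf ⟨l, hl, h1⟩) u)
  · simp only [Free, not_forall, not_not] at hf
    obtain ⟨m', hm', e⟩ := hf
    exact says_mode hq h.Md hm' (e ▸ h1) hy

theorem Closed.nm (hc : Closed p.Md Δ) (hq : IsCond F q) (h : NM p q) (hΔ : Δ ⊆ p.T) :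
    Closed q.Md Δ := fun l hl y hy => hc l hl y (says_nm hq h (hΔ hl) hy)

theorem Free.anti (h : Free q j) (hM : p.Md ⊆ q.Md) : Free p j := fun m hm => h m (hM hm)

theorem NM.wm (h : NM p q) (hf : Free p j) (hw : Wm (q.R j) (Facts q.T j) z) :
    Wm (p.R j) (Facts p.T j) z := hw.anti (h.R j) (h.fs j hf)

theorem NM.legal (h : NM p q) (hf : Free p j) (hG : Legal j (q.R j) (Facts q.T j) G) :
    Legal j (p.R j) (Facts p.T j) G :=
  LegalW.trans hG (fun _ => h.wm hf) (h.e1 j hf) (h.e2 j hf)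

theorem NM.legal_mode (h : NM p q) (hq : IsCond F q) {m : Mode M} (hm : m ∈ q.Md)
    (hf : Free p m.j) (hG : Legal m.j m.R m.D G) : Legal m.j (p.R m.j) (Facts p.T m.j) G := by
  refine LegalW.trans hG (fun z hz => hz.anti ?_ (h.e3 m hm hf))
    (fun H hH => h.e1 _ hf H (hq.mD m hm hH)) fun r hr => h.e2 _ hf r ?_
  · exact hq.mR m hm ▸ h.R _
  · exact hq.mR m hm ▸ hr

theorem NM.refl (p : Pre M) : NM p p :=
  ⟨fun _ => subset_rfl, subset_rfl, subset_rfl, fun _ _ => subset_rfl,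
    fun _ _ _ h => LegalW.self h, fun _ _ _ h h' => absurd h h',
    fun m hm hf => absurd rfl (hf m hm)⟩

theorem NM.trans (h1 : NM p q) (h2 : NM q r) (hq : IsCond F q) (hr : IsCond F r) : NM p r := by
  have key : ∀ j, ¬ Free q j → ∃ m ∈ q.Md, m.j = j := fun j hf => by
    simpa only [Free, not_forall, not_not, exists_prop] using hf
  refine ⟨fun j => (h1.R j).trans (h2.R j), h1.Md.trans h2.Md, h1.Z.trans h2.Z,
    fun j hf => ?_, fun j hf G hG => ?_, fun j hf x hx hx' z hz => ?_, fun m hm hf => ?_⟩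
  · by_cases hf' : Free q j
    · exact (h1.fs j hf).trans (h2.fs j hf')
    · obtain ⟨m, hm, rfl⟩ := key j hf'
      exact (h1.e3 m hm hf).trans (hr.mD m (h2.Md hm))
  · by_cases hf' : Free q j
    · exact h1.legal hf (h2.e1 j hf' G hG)
    · obtain ⟨m, hm, rfl⟩ := key j hf'
      exact h1.legal_mode hq hm hf (hr.mL m (h2.Md hm) G hG)
  · by_cases hx'' : x ∈ q.R j
    · exact h1.e2 j hf x hx'' hx' z hz
    · by_cases hf' : Free q j
      · exact h1.wm hf (h2.e2 j hf' x hx hx'' z hz)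
      · obtain ⟨m, hm, rfl⟩ := key j hf'
        rw [hr.mR m (h2.Md hm), ← hq.mR m hm] at hx
        exact absurd hx hx''
  · by_cases hf' : Free q m.j
    · exact (h1.fs _ hf).trans (h2.e3 m hm hf')
    · obtain ⟨m', hm', e⟩ := key _ hf'
      obtain rfl := hr.mfn m' (h2.Md hm') m hm e
      exact h1.e3 m' hm' hf

theorem Ext.refl (hp : IsCond F p) : Ext F p p := ⟨hp, subset_rfl, NM.refl p⟩

theorem Ext.trans (h1 : Ext F r q) (h2 : Ext F q p) : Ext F r p :=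
  ⟨h1.cond, h2.T.trans h1.T, h2.nm.trans h1.nm h2.cond h1.cond⟩

/-- the pairs decided by `p` are closed in any extension -/
theorem Ext.closed (h : Ext F q p) (hp : IsCond F p) : Closed q.Md p.T :=
  hp.closed.nm h.cond h.nm subset_rfl

/-! ### Adding decided pairs -/

theorem addT_cond (hp : IsCond F p) (hc : Δ.Countable)
    (fn : ∀ l ∈ Δ, ∀ l' ∈ p.T ∪ Δ, l.1 = l'.1 → l = l')
    (col : ∀ y b₀ b₁, (pr 0 y, b₀, b₁) ∈ Δ → (b₀ ≠ b₁ ↔ y ∈ F))
    (agr : ∀ j, ∀ G ∈ Facts Δ j, ∀ H ∈ Facts (p.T ∪ Δ) j, Agree G H)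
    (i1 : ∀ j, ∀ G ∈ Facts Δ j, ∀ r ∈ p.R j, ∀ z u, lay r z → ap G z u → lv j r z u)
    (mL : ∀ m ∈ p.Md, ∀ G ∈ Facts Δ m.j, Legal m.j m.R m.D G)
    (fc : ∀ l ∈ Δ, ∃ Γ : Set (Lit M), Γ.Finite ∧ Γ ⊆ p.T ∪ Δ ∧ l ∈ Γ ∧ Closed p.Md Γ) :
    IsCond F (addT p Δ) where
  cT := hp.cT.union hc
  cR := hp.cR
  cM := hp.cM
  cZ := hp.cZ
  fn := by
    rintro l (hl | hl) l' hl' e
    · rcases hl' with hl' | hl'
      · exact hp.fn l hl l' hl' e
      · exact (fn l' hl' l (Or.inl hl) e.symm).symm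
    · exact fn l hl l' hl' e
  col := fun y b₀ b₁ h => h.elim (hp.col y b₀ b₁) (col y b₀ b₁)
  agr := by
    intro j G hG H hH
    rcases facts_union.1 hG with hG' | hG'
    · rcases facts_union.1 hH with hH' | hH'
      · exact hp.agr j G hG' H hH'
      · exact (agr j H hH' G hG).symm
    · exact agr j G hG' H hH
  i1 := fun j G hG => (facts_union.1 hG).elim (hp.i1 j G) (i1 j G)
  dis := hp.dis
  tri := fun j r hr z hz => (hp.tri j r hr z hz).imp_right fun ⟨G, hG, h⟩ =>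
    ⟨G, Facts.mono Set.subset_union_left j hG, h⟩
  i3 := hp.i3
  mfn := hp.mfn
  mR := hp.mR
  mD := fun m hm => (hp.mD m hm).trans (Facts.mono Set.subset_union_left _)
  mL := fun m hm G hG => (facts_union.1 hG).elim (hp.mL m hm G) (mL m hm G)
  mZ := hp.mZ
  fc := by
    rintro l (hl | hl)
    · obtain ⟨Γ, h1, h2, h3⟩ := hp.fc l hl
      exact ⟨Γ, h1, h2.trans Set.subset_union_left, h3⟩
    · exact fc l hl

/-- if `q` weakly extends `p`, so does `q` with more pairs whose facts are legal over `p` -/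
theorem addT_nm (h : NM p q)
    (e1 : ∀ j, Free p j → ∀ G ∈ Facts Δ j, Legal j (p.R j) (Facts p.T j) G) :
    NM p (addT q Δ) :=
  ⟨h.R, h.Md, h.Z, fun j hf => (h.fs j hf).trans (Facts.mono Set.subset_union_left _),
    fun j hf G hG => (facts_union.1 hG).elim (h.e1 j hf G) (e1 j hf G), h.e2, h.e3⟩

theorem addT_ext (hc : IsCond F (addT p Δ))
    (e1 : ∀ j, Free p j → ∀ G ∈ Facts Δ j, Legal j (p.R j) (Facts p.T j) G) :
    Ext F (addT p Δ) p := ⟨hc, Set.subset_union_left, addT_nm (NM.refl p) e1⟩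

/-- a finite closed part of an extension can be added -/
theorem amalg (hq : IsCond F q) (h : Ext F r q) (hf : Δ.Finite) (hΔ : Δ ⊆ r.T)
    (hc : Closed r.Md Δ) : Ext F (addT q Δ) q := by
  have hu : q.T ∪ Δ ⊆ r.T := Set.union_subset h.T hΔ
  refine addT_ext (addT_cond hq hf.countable (fun l hl l' hl' => h.cond.fn l (hΔ hl) l' (hu hl'))
    (fun y b₀ b₁ hl => h.cond.col y b₀ b₁ (hΔ hl))
    (fun j G hG H hH => h.cond.agr j G (Facts.mono hΔ j hG) H (Facts.mono hu j hH))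
    (fun j G hG x hx => h.cond.i1 j G (Facts.mono hΔ j hG) x (h.nm.R j hx))
    (fun m hm G hG => h.cond.mL m (h.nm.Md hm) G (Facts.mono hΔ _ hG))
    fun l hl => ⟨Δ, hf, Set.subset_union_right, hl, hc.anti h.nm.Md⟩)
    fun j hj G hG => h.nm.e1 j hj G (Facts.mono hΔ j hG)

theorem facts_single {g j' : M} (hl : IsFact l j g) : G ∈ Facts {l} j' ↔ j' = j ∧ G = g := by
  constructor
  · rintro ⟨l', rfl, h⟩
    exact h.unique hl
  · rintro ⟨rfl, rfl⟩
    exact ⟨l, rfl, hl⟩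

theorem exists_factLit (hS : Sat (aleph 1) M) (hj : j ≠ 0) (g : M) {S : Set M}
    (h : S.Countable) : ∃ l : Lit M, IsFact l j g ∧ l.1 ∉ S ∧ l.2 = (true, false) := by
  obtain ⟨x, hx⟩ := exists_not_mem hS h (f := fun x => pr j (pr g x))
    fun x y e => (pr_inj.1 (pr_inj.1 e).2).2
  exact ⟨(pr j (pr g x), true, false), ⟨hj, x, true, rfl⟩, hx, rfl⟩

/-- a new piece of a free column -/
theorem fire_cond (hp : IsCond F p) (hf : Free p j) {g : M} (hl : IsFact l j g)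
    (hk : l.1 ∉ keys p.T) (hg : Agree g g) (ha : ∀ H ∈ Facts p.T j, Agree g H)
    (hi : ∀ r ∈ p.R j, ∀ z u, lay r z → ap g z u → lv j r z u) : IsCond F (addT p {l}) := by
  refine addT_cond hp (Set.countable_singleton _) ?_ ?_ ?_ ?_ ?_ ?_
  · rintro l' rfl l'' (h | h) e
    · exact absurd ⟨l'', h, e.symm⟩ hk
    · exact h.symm
  · rintro y b₀ b₁ rfl
    exact absurd hl IsFact.not_col
  · intro j' G hG H hH
    obtain ⟨rfl, rfl⟩ := (facts_single hl).1 hG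
    rcases facts_union.1 hH with hH | hH
    · exact ha H hH
    · exact ((facts_single hl).1 hH).2 ▸ hg
  · intro j' G hG
    obtain ⟨rfl, rfl⟩ := (facts_single hl).1 hG
    exact hi
  · intro m hm G hG
    exact absurd ((facts_single hl).1 hG).1 (hf m hm)
  · rintro l' rfl
    refine ⟨{l'}, Set.finite_singleton _, Set.subset_union_right, rfl, closed_single ?_⟩
    rintro y ⟨m, hm, G, z, u, h, -⟩
    exact hf m hm (h.unique hl).1

theorem fire (hS : Sat (aleph 1) M) (hp : IsCond F p) (hj : j ≠ 0) (hf : Free p j) {g : M}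
    (hg : Agree g g) (hL : Legal j (p.R j) (Facts p.T j) g) :
    ∃ l, IsFact l j g ∧ Ext F (addT p {l}) p := by
  obtain ⟨l, hl, hk, -⟩ := exists_factLit hS hj g (keys_countable hp.cT)
  refine ⟨l, hl, addT_ext (fire_cond hp hf hl hk hg (fun H hH z u u' h1 h2 => ?_)
    fun r hr z u h1 h2 => ?_) fun j' _ G hG => ?_⟩
  · exact (LegalW.old hL h1).elim (fun h => absurd h2 (h.2 H hH u')) fun h => hp.old_agree h hH h2
  · exact (LegalW.old hL h2).elim (fun h => absurd h1.1 (h.1 r hr)) fun h => hp.old_lv h hr h1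
  · obtain ⟨rfl, rfl⟩ := (facts_single hl).1 hG
    exact hL

/-- a new pair that is not a fact -/
theorem addT_plain (hp : IsCond F p) (hk : l.1 ∉ keys p.T) (hl : ∀ j G, ¬ IsFact l j G)
    (col : ∀ y b₀ b₁, l = (pr 0 y, b₀, b₁) → (b₀ ≠ b₁ ↔ y ∈ F)) : Ext F (addT p {l}) p := by
  have h0 : ∀ j G, G ∉ Facts {l} j := by
    rintro j G ⟨l', rfl, h⟩
    exact hl j G h
  refine addT_ext (addT_cond hp (Set.countable_singleton _) ?_ (fun y b₀ b₁ h => col y b₀ b₁ h.symm)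
    (fun j G hG => absurd hG (h0 j G)) (fun j G hG => absurd hG (h0 j G))
    (fun m _ G hG => absurd hG (h0 _ G)) ?_) fun j _ G hG => absurd hG (h0 j G)
  · rintro l' rfl l'' (h | h) e
    · exact absurd ⟨l'', h, e.symm⟩ hk
    · exact h.symm
  · rintro l' rfl
    refine ⟨{l'}, Set.finite_singleton _, Set.subset_union_right, rfl, closed_single ?_⟩
    rintro y ⟨m, hm, G, z, u, h, -⟩
    exact hl _ _ h

theorem dec_ext (hp : IsCond F p) {v : M} (hv : v ∉ keys p.T) (e : Bool) :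
    (∃ c, Ext F (addT p {(v, e, c)}) p) ∧ ∃ c, Ext F (addT p {(v, c, e)}) p := by
  classical
  by_cases h : ∃ y ∈ F, v = pr 0 y
  · obtain ⟨y, hy, rfl⟩ := h
    have key : ∀ b₀ b₁ : Bool, b₀ ≠ b₁ → Ext F (addT p {(pr 0 y, b₀, b₁)}) p := fun b₀ b₁ hb =>
      addT_plain hp hv (fun _ _ => IsFact.not_col) fun y' c₀ c₁ e => by
        simp only [Prod.mk.injEq, pr_inj, true_and] at e
        obtain ⟨rfl, rfl, rfl⟩ := e
        exact iff_of_true hb hy
    exact ⟨⟨!e, key _ _ (by cases e <;> simp)⟩, ⟨!e, key _ _ (by cases e <;> simp)⟩⟩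
  · have key : Ext F (addT p {(v, e, e)}) p :=
      addT_plain hp hv (fun _ _ => IsFact.not_neg) fun y' c₀ c₁ e => by
        simp only [Prod.mk.injEq] at e
        obtain ⟨rfl, rfl, rfl⟩ := e
        exact iff_of_false (fun h => h rfl) fun hy => h ⟨y', hy, rfl⟩
    exact ⟨⟨e, key⟩, ⟨e, key⟩⟩

end cond

end Pool.Agent.MP_6072c5_lc.H71
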