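import Pool.Agent.MP_6072c5_lc.H80.Cover
import Pool.Agent.MP_62ad46_lc.H18.Exist

/-!
A countably closed forcing over a saturated model of arithmetic of size `ℵ₁`.

A condition decides countably many pairs of bits `(v, b₀, b₁)`.  The pairs `v = pr 0 y` code a
fixed set `F` by `b₀ ≠ b₁`.  A pair `v = pr j (pr G q)` with `j ≠ 0` and `b₀ ≠ b₁` states that the
coded function `G` is a piece of the function built in column `j`.
-/

namespace Pool.Agent.MP_6072c5_lc.H71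

open Pool.Agent.MP_62ad46_lc.H18

variable {M : Type} [CommSemiring M] [LinearOrder M]

/-- a pair name with its two bits -/
abbrev Lit (M : Type) : Type := M × Bool × Bool

/-- four-place relations -/
abbrev Rel (M : Type) : Type := M → M → M → M → Prop

/-- a bit as an element of the model -/
def bn (b : Bool) : M := if b then 1 else 0

/-- the code of a decided pair -/
def lit (l : Lit M) : M := pr l.1 (pr (bn l.2.1) (bn l.2.2))

/-- the decided pair names -/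
def keys (T : Set (Lit M)) : Set M := {v | ∃ l ∈ T, l.1 = v}

/-- the coded function `G` has value `u` at `z` -/
abbrev ap (G z u : M) : Prop := mem (pr z u) G

/-- the point `z` says `y` in row `t` -/
abbrev say (t z y : M) : Prop := mem (pr t y) z

/-- the two parts of the model -/
def prt (i : Bool) (z : M) : Prop := say 0 z 0 ↔ i = true

/-- `z` fails the main test of the record `r = ((t, Y), c)`: row `t` of `z` is not `Y` -/
def fail (r z : M) : Prop := ∃ t Y c, r = pr (pr t Y) c ∧ ¬ ∀ y, say t z y ↔ mem y Y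

/-- `z` fails a test in row `n` of the list `c` -/
def failRow (c n z : M) : Prop :=
  (∃ r, mem (pr n (pr 0 r)) c ∧ fail r z) ∨ ∃ G u, mem (pr n (pr 1 G)) c ∧ ap G z u

/-- `z` fails a test of level `n` of the record `r` -/
def failL (r n z : M) : Prop := ∃ s c, r = pr s c ∧ failRow c n z

/-- the layer of the record `r` -/
def lay (r z : M) : Prop := fail r z ∧ ∀ n : ℕ, ¬ failL r (n : M) z

/-- `u` is entry `n` of the coded sequence `d` -/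
def wat (d n u : M) : Prop := mem (pr n u) d ∧ ∀ u', u' < u → ¬ mem (pr n u') d

/-- `n` is the first level at which `z` fails a test of `r` (or `μ`) -/
def lev (μ r z n : M) : Prop := n ≤ μ ∧ (n = μ ∨ failL r n z) ∧ ∀ m, m < n → ¬ failL r m z

/-- the value prescribed in column `j = (d, μ, q)` for a point `z` of the layer of `r` -/
def lv (j r z u : M) : Prop := ∃ d μ q n, j = pr d (pr μ q) ∧ lev μ r z n ∧ wat d n u

/-- the points passing all main tests in `R` and outside all domains in `D` -/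
def Wm (R D : Set M) (z : M) : Prop := (∀ r ∈ R, ¬ fail r z) ∧ ∀ G ∈ D, ∀ u, ¬ ap G z u

/-- the value `u` at `z` is given by a function in `D` or by a layer of `R` -/
def Old (j : M) (R D : Set M) (z u : M) : Prop :=
  (∃ H ∈ D, ap H z u) ∨ ∃ r ∈ R, lay r z ∧ lv j r z u

/-- outside the set `W`, `G` is given by finitely many functions in `D` and layers of `R` -/
def LegalW (W : M → Prop) (j : M) (R D : Set M) (G : M) : Prop :=
  ∃ R₀ D₀ : Set M, R₀.Finite ∧ D₀.Finite ∧ R₀ ⊆ R ∧ D₀ ⊆ D ∧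
    ∀ z u, ap G z u → W z ∨ Old j R₀ D₀ z u

/-- `G` can be added to a column with records `R` and functions `D` -/
def Legal (j : M) (R D : Set M) (G : M) : Prop := LegalW (Wm R D) j R D G

/-- the two coded functions agree -/
def Agree (G H : M) : Prop := ∀ z u u', ap G z u → ap H z u' → u = u'

/-- the pair `l` states that `G` is a piece of the function of column `j` -/
def IsFact (l : Lit M) (j G : M) : Prop := j ≠ 0 ∧ ∃ q b, l = (pr j (pr G q), b, !b)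

/-- the pieces of the function of column `j` -/
def Facts (T : Set (Lit M)) (j : M) : Set M := {G | ∃ l ∈ T, IsFact l j G}

/-- `c` lists the records `R` and the functions `D` in its standard rows -/
structure Lists (c : M) (R D : Set M) : Prop where
  hR : ∀ r, r ∈ R ↔ ∃ n : ℕ, mem (pr (n : M) (pr 0 r)) c
  hD : ∀ G, G ∈ D ↔ ∃ n : ℕ, mem (pr (n : M) (pr 1 G)) c
  fin : ∀ n : ℕ, {x | mem (pr (n : M) x) c}.Finite

/-- a message mode of column `j`: row `t`, frozen records `R` and old functions `D` -/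
structure Mode (M : Type) where
  j : M
  t : M
  D : Set M
  R : Set M

/-- the pair `l` depends on the message `y` -/
def Says (Md : Set (Mode M)) (l : Lit M) (y : M) : Prop :=
  ∃ m ∈ Md, ∃ G z u, IsFact l m.j G ∧ ap G z u ∧ Wm m.R m.D z ∧ say m.t z y

/-- all messages on which members of `Δ` depend are codes of members of `Δ` -/
def Closed (Md : Set (Mode M)) (Δ : Set (Lit M)) : Prop :=
  ∀ l ∈ Δ, ∀ y, Says Md l y → ∃ l' ∈ Δ, y = lit l'

/-- the data of a condition -/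
structure Pre (M : Type) where
  T : Set (Lit M)
  R : M → Set M
  Md : Set (Mode M)
  Z : Set M

/-- column `j` is not in message mode -/
def Free (p : Pre M) (j : M) : Prop := ∀ m ∈ p.Md, m.j ≠ j

/-- conditions -/
structure IsCond (F : Set M) (p : Pre M) : Prop where
  cT : p.T.Countable
  cR : ∀ j, (p.R j).Countable
  cM : p.Md.Countable
  cZ : p.Z.Countable
  fn : ∀ l ∈ p.T, ∀ l' ∈ p.T, l.1 = l'.1 → l = l'
  col : ∀ y b₀ b₁, (pr 0 y, b₀, b₁) ∈ p.T → (b₀ ≠ b₁ ↔ y ∈ F)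
  agr : ∀ j, ∀ G ∈ Facts p.T j, ∀ H ∈ Facts p.T j, Agree G H
  i1 : ∀ j, ∀ G ∈ Facts p.T j, ∀ r ∈ p.R j, ∀ z u, lay r z → ap G z u → lv j r z u
  dis : ∀ j, ∀ r ∈ p.R j, ∀ r' ∈ p.R j, ∀ z, lay r z → lay r' z → r = r'
  tri : ∀ j, ∀ r ∈ p.R j, ∀ z, fail r z →
    (∃ r' ∈ p.R j, lay r' z) ∨ ∃ G ∈ Facts p.T j, ∃ u, ap G z u
  i3 : ∀ j t Y c, pr (pr t Y) c ∈ p.R j → t ≠ 0 ∧
    ∀ Y' c', pr (pr t Y') c' ∈ p.R j → Y = Y'
  mfn : ∀ m ∈ p.Md, ∀ m' ∈ p.Md, m.j = m'.j → m = m'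
  mR : ∀ m ∈ p.Md, p.R m.j = m.R
  mD : ∀ m ∈ p.Md, m.D ⊆ Facts p.T m.j
  mL : ∀ m ∈ p.Md, ∀ G ∈ Facts p.T m.j, Legal m.j m.R m.D G
  mZ : ∀ m ∈ p.Md, m.j ∉ p.Z
  fc : ∀ l ∈ p.T, ∃ Δ : Set (Lit M), Δ.Finite ∧ Δ ⊆ p.T ∧ l ∈ Δ ∧ Closed p.Md Δ

/-- `q` extends `p`, except that decided pairs may have changed -/
structure NM (p q : Pre M) : Prop where
  R : ∀ j, p.R j ⊆ q.R j
  Md : p.Md ⊆ q.Md
  Z : p.Z ⊆ q.Z
  fs : ∀ j, Free p j → Facts p.T j ⊆ Facts q.T j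
  e1 : ∀ j, Free p j → ∀ G ∈ Facts q.T j, Legal j (p.R j) (Facts p.T j) G
  e2 : ∀ j, Free p j → ∀ r ∈ q.R j, r ∉ p.R j → ∀ z, lay r z → Wm (p.R j) (Facts p.T j) z
  e3 : ∀ m ∈ q.Md, Free p m.j → Facts p.T m.j ⊆ m.D

/-- `q` is a condition extending `p` -/
structure Ext (F : Set M) (q p : Pre M) : Prop where
  cond : IsCond F q
  T : p.T ⊆ q.T
  nm : NM p q

/-- more decided pairs -/
def addT (p : Pre M) (Δ : Set (Lit M)) : Pre M := ⟨p.T ∪ Δ, p.R, p.Md, p.Z⟩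

/-- one more record -/
def addR (p : Pre M) (j r : M) : Pre M :=
  ⟨p.T, fun i => {x | x ∈ p.R i ∨ (i = j ∧ x = r)}, p.Md, p.Z⟩

/-- column `j` is protected from message mode -/
def protect (p : Pre M) (j : M) : Pre M := ⟨p.T, p.R, p.Md, insert j p.Z⟩

/-- the mode of column `j` started at `b` -/
def modeAt (b : Pre M) (j t : M) : Mode M := ⟨j, t, Facts b.T j, b.R j⟩

/-- column `j` goes to message mode -/
def modeOn (b : Pre M) (j t : M) : Pre M :=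
  ⟨b.T, b.R, insert (modeAt b j t) b.Md, b.Z \ {j}⟩

/-- column `j` leaves message mode -/
def unmode (p : Pre M) (j : M) : Pre M := ⟨p.T, p.R, {m | m ∈ p.Md ∧ m.j ≠ j}, insert j p.Z⟩

/-- the limit of a sequence -/
def lim (r : ℕ → Pre M) : Pre M :=
  ⟨{l | ∃ n, ∀ m, n ≤ m → l ∈ (r m).T}, fun j => {x | ∃ n, x ∈ (r n).R j},
    {m | ∃ n, m ∈ (r n).Md}, {j | ∃ n, j ∈ (r n).Z}⟩

/-- the decided pairs `T` confirm the neighbourhood condition `(a, b)` of the generic set -/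
def Ev (T : Set (Lit M)) (a b : M) : Prop :=
  (∀ x, mem x a → ∃ v c, (x = pr 0 v ∧ (v, true, c) ∈ T) ∨ (x = pr 1 v ∧ (v, c, true) ∈ T)) ∧
    ∀ v, (mem (pr 0 v) b → ∃ c, (v, false, c) ∈ T) ∧ (mem (pr 1 v) b → ∃ c, (v, c, false) ∈ T)

/-- `C` enumerates the condition `(k₁, k₀)` from `T` -/
def En (T : Set (Lit M)) (C : Rel M) (k₁ k₀ : M) : Prop := ∃ a b, C k₁ k₀ a b ∧ Ev T a b

/-- `C` gives the value `e` to the point `w` from `T` -/
def En1 (T : Set (Lit M)) (C : Rel M) (e : Bool) (w : M) : Prop :=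
  ∃ k₁ k₀, En T C k₁ k₀ ∧ mem w (if e then k₁ else k₀)

/-- `q` forces that `C` does not compute a set -/
def Inv (F : Set M) (C : Rel M) (q : Pre M) : Prop :=
  (∃ w, En1 q.T C true w ∧ En1 q.T C false w) ∨
    ∃ k₁ k₀, ∀ r, Ext F r q → ¬ En r.T C k₁ k₀ ∧ (∀ w, mem w k₁ → ¬ En1 r.T C false w) ∧
      ∀ w, mem w k₀ → ¬ En1 r.T C true w

/-- below `q`, `C` does not see the flip of a new pair of column `0` -/
def Ins (F : Set M) (C : Rel M) (q : Pre M) : Prop :=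
  ∀ r, Ext F r q → ∀ y b₀ b₁, (pr 0 y, b₀, b₁) ∈ r.T → pr 0 y ∉ keys q.T →
    ∀ k₁ k₀, En r.T C k₁ k₀ → ∃ s, Ext F s q ∧ En s.T C k₁ k₀ ∧ (pr 0 y, !b₀, !b₁) ∈ s.T ∧
      ∀ y' c, y' ≠ y → (pr 0 y', c) ∈ r.T → (pr 0 y', c) ∈ s.T

/-- the coded set has infinitely many standard elements -/
def InfStd (Y : M) : Prop := ∀ N : ℕ, ∃ n : ℕ, N ≤ n ∧ mem (n : M) Y

/-- below `q`, both values can be forced on the nonstandard part of any subset of `Y₀` -/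
def BMY (F : Set M) (C : Rel M) (q : Pre M) (d Y₀ : M) : Prop :=
  ∀ r, Ext F r q → ∀ Y, sub Y Y₀ → InfStd Y → ∀ e, ∃ s, Ext F s r ∧
    ∃ n u, mem n Y ∧ n ∉ omega M ∧ wat d n u ∧ En1 s.T C e u

/-- the same for a sequence of nonstandard length `μ` -/
def BMF (F : Set M) (C : Rel M) (q : Pre M) (d μ : M) : Prop :=
  μ ∉ omega M ∧ (∀ n, n ≤ μ → ∃ u, wat d n u) ∧
    ∀ r, Ext F r q → ∀ Y, (∀ n, mem n Y → n ≤ μ) → InfStd Y → ∀ e, ∃ s, Ext F s r ∧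
      ∃ n u, mem n Y ∧ n ∉ omega M ∧ wat d n u ∧ En1 s.T C e u

/-- the condition `(a, b)` of the join of the computed set with part `i` of the column set follows
from the condition `(k₁, k₀)` of the computed set and the functions `G₁`, `G₀` -/
def Rows (i : Bool) (a b G₁ G₀ k₁ k₀ : M) : Prop :=
  (∀ x, mem x a → (∃ y, x = pr 0 y ∧ mem y k₁) ∨
      ∃ y u, x = pr 1 y ∧ prt i y ∧ ap G₁ y u ∧ mem u k₁) ∧
    (∀ y, mem (pr 0 y) b → mem y k₀) ∧
      ∀ y, mem (pr 1 y) b → prt i y → ∃ u, ap G₀ y u ∧ mem u k₀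

/-- `Ψ` puts the set coded by `K` outside its output -/
def PEv (T : Set (Lit M)) (C : Rel M) (j : M) (i : Bool) (Ψ : Rel M) (K : M) : Prop :=
  ∃ k a b k₁ k₀, Ψ k K a b ∧ En T C k₁ k₀ ∧
    ∃ G₁ ∈ Facts T j, ∃ G₀ ∈ Facts T j, Rows i a b G₁ G₀ k₁ k₀

/-- `Ψ` gives a wrong value -/
def Wrong (T : Set (Lit M)) (C : Rel M) (j : M) (i : Bool) (Ψ : Rel M) : Prop :=
  ∃ K, PEv T C j i Ψ K ∧ ∃ z, mem z K ∧ prt (!i) z ∧
    ∃ H ∈ Facts T j, ∃ u, ap H z u ∧ En1 T C true u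

/-- `Ψ` is forced to miss a condition -/
def Div (F : Set M) (C : Rel M) (j : M) (i : Bool) (Ψ : Rel M) (q : Pre M) : Prop :=
  ∃ K, (∃ H ∈ Facts q.T j, ∀ z, mem z K → ∃ u, ap H z u ∧ En1 q.T C false u) ∧
    ∀ r, Ext F r q → ¬ PEv r.T C j i Ψ K

/-- the message `y` is read from the condition `(k₁, k₀)` of the computed set -/
def Rd (m : Mode M) (Ψ : Rel M) (i : Bool) (y k₁ k₀ : M) : Prop :=
  ∃ k K a b g z, Ψ k K a b ∧ mem z K ∧ prt (!i) z ∧ Wm m.R m.D z ∧ say m.t z y ∧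
    Rows i a b g g k₁ k₀ ∧ (∀ x u, ap g x u → prt i x) ∧ Agree g g ∧
    LegalW (fun x => Wm m.R m.D x ∧ say m.t x y) m.j m.R m.D g

/-- below `modeOn b j t` every decided pair can be read -/
def RdDense (F : Set M) (C : Rel M) (b : Pre M) (j t : M) (i : Bool) (Ψ : Rel M) : Prop :=
  ∀ q, Ext F q (modeOn b j t) → ∀ l ∈ q.T, ∃ r, Ext F r q ∧
    ∃ k₁ k₀, En r.T C k₁ k₀ ∧ Rd (modeAt b j t) Ψ i (lit l) k₁ k₀

/-- the outcomes of the totality step for the coded set `K` in column `j = (d, μ, q)` -/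
def Tot (p : Pre M) (j μ K a₀ a₁ : M) : Prop :=
  (∃ G ∈ Facts p.T j, ∀ z, mem z K → ∃ u, ap G z u) ∨
    (∃ z₀ z₁, mem z₀ K ∧ mem z₁ K ∧ ∃ G ∈ Facts p.T j, ap G z₀ a₀ ∧ ap G z₁ a₁) ∨
      ∃ r ∈ p.R j, ∀ N : ℕ, ∃ n : ℕ, N ≤ n ∧ ∃ z, mem z K ∧ fail r z ∧ lev μ r z (n : M)

/-- the condition `(a, b)` of the join of the computed set with part `i` of the mask set follows
from the condition `(k₁, k₀)` of the computed set and from `T` -/
def RowsM (T : Set (Lit M)) (i : Bool) (a b k₁ k₀ : M) : Prop :=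
  (∀ x, mem x a → (∃ y, x = pr 0 y ∧ mem y k₁) ∨
      ∃ y c, x = pr 1 y ∧ prt i y ∧ (pr 0 y, true, c) ∈ T) ∧
    (∀ y, mem (pr 0 y) b → mem y k₀) ∧
      ∀ y, mem (pr 1 y) b → prt i y → ∃ c, (pr 0 y, false, c) ∈ T

/-- `Ψ` puts `y` outside its output -/
def MEv (T : Set (Lit M)) (C : Rel M) (i : Bool) (Ψ : Rel M) (y : M) : Prop :=
  ∃ k K a b k₁ k₀, Ψ k K a b ∧ mem y K ∧ En T C k₁ k₀ ∧ RowsM T i a b k₁ k₀

/-- `q` forces that `Ψ` does not compute the other part of the mask set -/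
def MWin (F : Set M) (C : Rel M) (i : Bool) (Ψ : Rel M) (q : Pre M) : Prop :=
  ∃ y, prt (!i) y ∧ ((MEv q.T C i Ψ y ∧ ∃ c, (pr 0 y, true, c) ∈ q.T) ∨
    ((∃ c, (pr 0 y, false, c) ∈ q.T) ∧ ∀ r, Ext F r q → ¬ MEv r.T C i Ψ y))

/-- `Γ` is an alternative version of finitely many pairs decided by `u` -/
structure Alt (F : Set M) (u : Pre M) (Γ : Set (Lit M)) : Prop where
  fin : Γ.Finite
  fn : ∀ l ∈ Γ, ∀ l' ∈ Γ, l.1 = l'.1 → l = l'
  cl : Closed u.Md Γ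
  new : ∀ l ∈ Γ, l ∉ u.T →
    (∃ y b₀ b₁ c, l = (pr 0 y, b₀, b₁) ∧ (b₀ ≠ b₁ ↔ y ∈ F) ∧ (pr 0 y, c) ∈ u.T) ∨
      ∃ m ∈ u.Md, ∃ H, IsFact l m.j H ∧ (∃ b, (l.1, b, b) ∈ u.T) ∧ Legal m.j m.R m.D H ∧
        (∀ G ∈ Facts Γ m.j, Agree H G) ∧ ∀ G ∈ Facts u.T m.j, Agree H G

/-- `u'` is obtained from `u` by switching to the version `Γ` -/
structure Sw (F : Set M) (u : Pre M) (Γ : Set (Lit M)) (u' : Pre M) : Prop where
  cond : IsCond F u'
  R : u'.R = u.R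
  Md : u'.Md = u.Md
  Z : u'.Z = u.Z
  nm : NM u u'
  sub : Γ ⊆ u'.T
  keep : ∀ Δ, Δ ⊆ u.T → Closed u.Md Δ → Disjoint (keys Δ) (keys (Γ \ u.T)) → Δ ⊆ u'.T
  chg : ∀ l ∈ u.T, l ∉ u'.T → l.1 ∈ keys (Γ \ u.T) ∨
    ((∃ l' ∈ u.T, l' ∉ u'.T ∧ Says u.Md l (lit l')) ∧ (∃ b, (l.1, b, b) ∈ u'.T) ∧
      ∀ m ∈ u.Md, ∀ G, IsFact l m.j G → ∃ G' ∈ Facts u'.T m.j, (∀ z a, ap G' z a → ap G z a) ∧
        ∀ z a, ap G z a → Wm m.R m.D z →
          ap G' z a ∨ ∃ l' ∈ u.T, l' ∉ u'.T ∧ say m.t z (lit l'))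

/-- two versions of finitely many pairs, giving different values to the point `w` -/
structure Petal (M : Type) where
  G0 : Set (Lit M)
  G1 : Set (Lit M)
  w : M

/-- `u` contains version `G1` of the petal and can be switched to version `G0` -/
structure Ready (F : Set M) (C : Rel M) (e : Bool) (u : Pre M) (π : Petal M) : Prop where
  fin0 : π.G0.Finite
  fin1 : π.G1.Finite
  sub : π.G1 ⊆ u.T
  cl0 : Closed u.Md π.G0
  cl1 : Closed u.Md π.G1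
  en0 : En1 π.G0 C (!e) π.w
  en1 : En1 π.G1 C e π.w
  fn : ∀ l ∈ π.G0, ∀ l' ∈ π.G0, l.1 = l'.1 → l = l'
  new : ∀ l ∈ π.G0, l ∉ u.T →
    (∃ y b₀ b₁ c, l = (pr 0 y, b₀, b₁) ∧ (b₀ ≠ b₁ ↔ y ∈ F) ∧ (pr 0 y, c) ∈ u.T) ∨
      ∃ m ∈ u.Md, ∃ H, IsFact l m.j H ∧ (∃ b, (l.1, b, b) ∈ u.T) ∧ Legal m.j m.R m.D H ∧
        (∀ G ∈ Facts π.G0 m.j, Agree H G) ∧ ∃ H' ∈ Facts π.G1 m.j, ∀ z a, ap H z a →
          Wm m.R m.D z → ap H' z a ∨ ∃ l' ∈ π.G0, l' ∉ u.T ∧ say m.t z (lit l')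

/-- a directed set of conditions deciding everything -/
structure Gen (F : Set M) (G : Set (Pre M)) : Prop where
  cond : ∀ p ∈ G, IsCond F p
  ne : G.Nonempty
  dir : ∀ p ∈ G, ∀ q ∈ G, ∃ r ∈ G, Ext F r p ∧ Ext F r q
  dec : ∀ v, ∃ p ∈ G, v ∈ keys p.T
  imm : ∀ k, {x | mem x k}.Infinite → ∀ b, (∃ p ∈ G, ∃ v c, mem v k ∧ (v, b, c) ∈ p.T) ∧
    ∃ p ∈ G, ∃ v c, mem v k ∧ (v, c, b) ∈ p.T

/-- the first bits -/
def B0 (G : Set (Pre M)) : Set M := {v | ∃ p ∈ G, ∃ c, (v, true, c) ∈ p.T}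

/-- the second bits -/
def B1 (G : Set (Pre M)) : Set M := {v | ∃ p ∈ G, ∃ c, (v, c, true) ∈ p.T}

/-- the generic set -/
def BB (G : Set (Pre M)) : Set M := join (B0 G) (B1 G)

/-- `G` meets `P` if `P` is dense below a member of `G` -/
def Meets (F : Set M) (G : Set (Pre M)) (P : Pre M → Prop) : Prop :=
  ∀ q₀ ∈ G, (∀ q, Ext F q q₀ → ∃ r, Ext F r q ∧ P r) → ∃ q ∈ G, P q

/-- part `i` of the mask set -/
def Mask (G : Set (Pre M)) (i : Bool) : Set M := {y | prt i y ∧ pr 0 y ∈ B0 G}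

/-- the column set -/
def Col (G : Set (Pre M)) (A : Set M) (j : M) : Set M :=
  {z | ∃ p ∈ G, ∃ H ∈ Facts p.T j, ∃ u, ap H z u ∧ u ∈ A}

end Pool.Agent.MP_6072c5_lc.H71
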