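import Pool.Agent.MP_6072c5_lc.H71.Defs

/-! Definability of the basic relations; levels. -/

set_option linter.unusedSectionVars false
set_option synthInstance.maxSize 100000

namespace Pool.Agent.MP_6072c5_lc.H71

open Pool.Agent.MP_62ad46_lc.H18

variable {M : Type} [CommSemiring M] [LinearOrder M] [IsPA M]

/-- a bounded unary relation -/
class D1 (W : M → Prop) : Prop where out : D0 fun v => W (v 0)
/-- a bounded binary relation -/
class D2 (W : M → M → Prop) : Prop where out : D0 fun v => W (v 0) (v 1)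
/-- a bounded ternary relation -/
class D3 (W : M → M → M → Prop) : Prop where out : D0 fun v => W (v 0) (v 1) (v 2)
/-- a bounded four-place relation -/
class D4 (W : M → M → M → M → Prop) : Prop where out : D0 fun v => W (v 0) (v 1) (v 2) (v 3)

theorem tm4 {a b c d : (ℕ → M) → M} (ha : Tm a) (hb : Tm b) (hc : Tm c) (hd : Tm d) :
    ∀ i, Tm ((fun i : ℕ => match i with | 0 => a | 1 => b | 2 => c | _ => d) i)
  | 0 => ha
  | 1 => hb
  | 2 => hc
  | _ + 3 => hd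

section
variable {a b c d : (ℕ → M) → M}

instance (priority := 50) {W} [h : D1 W] [a1 : TmI a] : D0I fun v => W (a v) :=
  ⟨h.out.subst (tm4 a1.out a1.out a1.out a1.out)⟩
instance (priority := 55) {W} [h : D2 W] [a1 : TmI a] [a2 : TmI b] :
    D0I fun v => W (a v) (b v) := ⟨h.out.subst (tm4 a1.out a2.out a1.out a1.out)⟩
instance (priority := 60) {W} [h : D3 W] [a1 : TmI a] [a2 : TmI b] [a3 : TmI c] :
    D0I fun v => W (a v) (b v) (c v) := ⟨h.out.subst (tm4 a1.out a2.out a3.out a1.out)⟩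
instance (priority := 65) {W} [h : D4 W] [a1 : TmI a] [a2 : TmI b] [a3 : TmI c] [a4 : TmI d] :
    D0I fun v => W (a v) (b v) (c v) (d v) := ⟨h.out.subst (tm4 a1.out a2.out a3.out a4.out)⟩
end

instance {W : M → Prop} [h : D1 W] : Ar1 W := ⟨h.out.ar⟩
instance {W : M → M → Prop} [h : D2 W] : Ar2 W := ⟨h.out.ar⟩
instance {W : M → M → M → Prop} [h : D3 W] : Ar3 W := ⟨h.out.ar⟩
instance {W : M → M → M → M → Prop} [h : D4 W] : Ar4 W := ⟨h.out.ar⟩

instance (i : Bool) : D1 (prt (M := M) i) := by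
  refine ⟨?_⟩
  unfold prt
  exact D0.iff D0I.out (D0.const _)

instance : D2 (fail (M := M)) := by
  refine ⟨D0.congr (P := fun v => ∃ t, t ≤ v 0 ∧ ∃ Y, Y ≤ v 0 ∧ ∃ c, c ≤ v 0 ∧
    v 0 = pr (pr t Y) c ∧ ¬ ((∀ y, mem (pr t y) (v 1) → mem y Y) ∧
      ∀ y, mem y Y → mem (pr t y) (v 1))) (by exact D0I.out) fun v => ?_⟩
  constructor
  · rintro ⟨t, -, Y, -, c, -, h, h'⟩
    exact ⟨t, Y, c, h, fun H => h' ⟨fun y => (H y).1, fun y => (H y).2⟩⟩
  · rintro ⟨t, Y, c, h, h'⟩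
    refine ⟨t, h ▸ (le_pr_left _ _).trans (le_pr_left _ _), Y,
      h ▸ (le_pr_right _ _).trans (le_pr_left _ _), c, h ▸ le_pr_right _ _, h,
      fun H => h' fun y => ⟨H.1 y, H.2 y⟩⟩

instance : D3 (failRow (M := M)) := by
  refine ⟨D0.congr (P := fun v => (∃ r, r ≤ v 0 ∧ mem (pr (v 1) (pr 0 r)) (v 0) ∧ fail r (v 2)) ∨
    ∃ G, G ≤ v 0 ∧ ∃ u, u ≤ v 0 ∧ mem (pr (v 1) (pr 1 G)) (v 0) ∧ mem (pr (v 2) u) G)
    (by exact D0I.out) fun v => ?_⟩
  constructor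
  · rintro (⟨r, -, h⟩ | ⟨G, -, u, -, h⟩)
    · exact Or.inl ⟨r, h⟩
    · exact Or.inr ⟨G, u, h⟩
  · rintro (⟨r, h⟩ | ⟨G, u, h⟩)
    · exact Or.inl ⟨r, ((le_pr_right _ _).trans (le_pr_right _ _)).trans (lt_of_mem h.1).le, h⟩
    · have hG : G ≤ v 0 := ((le_pr_right _ _).trans (le_pr_right _ _)).trans (lt_of_mem h.1).le
      exact Or.inr ⟨G, hG, u, ((le_pr_right _ _).trans (lt_of_mem h.2).le).trans hG, h⟩

instance : D3 (failL (M := M)) := by
  refine ⟨D0.congr (P := fun v => ∃ s, s ≤ v 0 ∧ ∃ c, c ≤ v 0 ∧ v 0 = pr s c ∧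
    failRow c (v 1) (v 2)) (by exact D0I.out) fun v => ?_⟩
  constructor
  · rintro ⟨s, -, c, -, h⟩
    exact ⟨s, c, h⟩
  · rintro ⟨s, c, h, h'⟩
    exact ⟨s, h ▸ le_pr_left _ _, c, h ▸ le_pr_right _ _, h, h'⟩

instance : D3 (wat (M := M)) := ⟨by unfold wat; exact D0I.out⟩

instance : D4 (lev (M := M)) := ⟨by unfold lev; exact D0I.out⟩

instance : D4 (lv (M := M)) := by
  refine ⟨D0.congr (P := fun v => ∃ d, d ≤ v 0 ∧ ∃ μ, μ ≤ v 0 ∧ ∃ q, q ≤ v 0 ∧ ∃ n, n ≤ v 0 ∧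
    v 0 = pr d (pr μ q) ∧ lev μ (v 1) (v 2) n ∧ wat d n (v 3)) (by exact D0I.out) fun v => ?_⟩
  constructor
  · rintro ⟨d, -, μ, -, q, -, n, -, h⟩
    exact ⟨d, μ, q, n, h⟩
  · rintro ⟨d, μ, q, n, h, h1, h2⟩
    have hμ : μ ≤ v 0 := h ▸ (le_pr_left _ _).trans (le_pr_right _ _)
    exact ⟨d, h ▸ le_pr_left _ _, μ, hμ, q, h ▸ (le_pr_right _ _).trans (le_pr_right _ _), n,
      h1.1.trans hμ, h, h1, h2⟩

instance : D2 (Agree (M := M)) := by
  refine ⟨D0.congr (P := fun v => ∀ z, z ≤ v 0 → ∀ u, mem (pr z u) (v 0) →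
    ∀ u', mem (pr z u') (v 1) → u = u') (by exact D0I.out) fun v => ?_⟩
  exact ⟨fun H z u u' h h' => H z ((le_pr_left _ _).trans (lt_of_mem h).le) u h u' h',
    fun H z _ u h u' h' => H z u u' h h'⟩

theorem bn_inj {a b : Bool} (h : (bn a : M) = bn b) : a = b := by
  cases a <;> cases b <;> simp [bn] at h ⊢

theorem lit_inj {l l' : Lit M} (h : lit l = lit l') : l = l' := by
  obtain ⟨v, a, b⟩ := l
  obtain ⟨v', a', b'⟩ := l'
  simp only [lit, pr_inj] at h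
  rw [h.1, bn_inj h.2.1, bn_inj h.2.2]

theorem wat_unique {d n u u' : M} (h : wat d n u) (h' : wat d n u') : u = u' :=
  le_antisymm (not_lt.1 fun hl => h.2 _ hl h'.1) (not_lt.1 fun hl => h'.2 _ hl h.1)

theorem exists_wat {d n u : M} (h : mem (pr n u) d) : ∃ u', wat d n u' := by
  obtain ⟨c, hc, hmin⟩ := exists_least (P := fun x => mem (pr n x) d) (by exact ArI.out) h
  exact ⟨c, hc, fun u' hl hm => absurd (hmin u' hm) (not_le.2 hl)⟩

theorem lev_unique {μ r z n n' : M} (h : lev μ r z n) (h' : lev μ r z n') : n = n' := by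
  have key : ∀ {n n' : M}, lev μ r z n → lev μ r z n' → n ≤ n' := fun h h' =>
    not_lt.1 fun hl => h'.2.1.elim (fun e => absurd (e ▸ hl) (not_lt.2 h.1)) (h.2.2 _ hl)
  exact le_antisymm (key h h') (key h' h)

theorem lv_unique {j r z u u' : M} (h : lv j r z u) (h' : lv j r z u') : u = u' := by
  obtain ⟨d, μ, q, n, e, h1, h2⟩ := h
  obtain ⟨d', μ', q', n', e', h1', h2'⟩ := h'
  rw [e, pr_inj, pr_inj] at e'
  obtain ⟨rfl, rfl, -⟩ := e'
  obtain rfl := lev_unique h1 h1'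
  exact wat_unique h2 h2'

theorem lev_exists (μ r z : M) : ∃ n, lev μ r z n := by
  obtain ⟨c, hc, hmin⟩ := exists_least (P := fun x => x = μ ∨ failL r x z) (by exact ArI.out)
    (x := μ) (Or.inl rfl)
  exact ⟨c, hmin μ (Or.inl rfl), hc, fun m hl hm => absurd (hmin m (Or.inr hm)) (not_le.2 hl)⟩

theorem nat_lt_of_nonstd {c : M} (hc : c ∉ omega M) (n : ℕ) : (n : M) < c :=
  lt_of_le_of_ne (le_of_nonstd (nat_std n) hc) fun h => hc (h ▸ nat_std n)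

theorem lay_of_lev {μ r z n : M} (hf : fail r z) (h : lev μ r z n) (hn : n ∉ omega M) :
    lay r z := ⟨hf, fun m => h.2.2 _ (nat_lt_of_nonstd hn m)⟩

theorem lev_nonstd {μ r z n : M} (hμ : μ ∉ omega M) (hl : lay r z) (h : lev μ r z n) :
    n ∉ omega M := by
  rintro ⟨m, rfl⟩
  exact h.2.1.elim (fun e => hμ (e ▸ nat_std m)) (hl.2 m)

theorem lv_iff {d μ q r z u : M} : lv (pr d (pr μ q)) r z u ↔ ∃ n, lev μ r z n ∧ wat d n u := by
  constructor
  · rintro ⟨d', μ', q', n, e, h⟩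
    rw [pr_inj, pr_inj] at e
    obtain ⟨rfl, rfl, -⟩ := e
    exact ⟨n, h⟩
  · rintro ⟨n, h⟩
    exact ⟨d, μ, q, n, rfl, h⟩

theorem fail_iff {t Y c z : M} : fail (pr (pr t Y) c) z ↔ ¬ ∀ y, say t z y ↔ mem y Y := by
  constructor
  · rintro ⟨t', Y', c', e, h⟩
    rw [pr_inj, pr_inj] at e
    obtain ⟨⟨rfl, rfl⟩, -⟩ := e
    exact h
  · exact fun h => ⟨t, Y, c, rfl, h⟩

theorem failL_iff {s c n z : M} : failL (pr s c) n z ↔ failRow c n z := by
  constructor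
  · rintro ⟨s', c', e, h⟩
    rw [pr_inj] at e
    exact e.2 ▸ h
  · exact fun h => ⟨s, c, rfl, h⟩

theorem Lists.wm {c : M} {R D : Set M} (h : Lists c R D) {z : M} :
    Wm R D z ↔ ∀ n : ℕ, ¬ failRow c n z := by
  constructor
  · rintro ⟨h1, h2⟩ n (⟨r, hr, hf⟩ | ⟨G, u, hG, hu⟩)
    · exact h1 r ((h.hR r).2 ⟨n, hr⟩) hf
    · exact h2 G ((h.hD G).2 ⟨n, hG⟩) u hu
  · intro H
    refine ⟨fun r hr hf => ?_, fun G hG u hu => ?_⟩
    · obtain ⟨n, hn⟩ := (h.hR r).1 hr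
      exact H n (Or.inl ⟨r, hn, hf⟩)
    · obtain ⟨n, hn⟩ := (h.hD G).1 hG
      exact H n (Or.inr ⟨G, u, hn, hu⟩)

theorem prt_not {i : Bool} {z : M} : prt (!i) z ↔ ¬ prt i z := by
  cases i <;> simp [prt]

theorem IsFact.unique {l : Lit M} {j G j' G' : M} (h : IsFact l j G) (h' : IsFact l j' G') :
    j = j' ∧ G = G' := by
  obtain ⟨-, q, b, rfl⟩ := h
  obtain ⟨-, q', b', e⟩ := h'
  simp only [Prod.mk.injEq, pr_inj] at e
  exact ⟨e.1.1, e.1.2.1⟩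

theorem IsFact.not_col {y j G : M} {c : Bool × Bool} : ¬ IsFact (pr 0 y, c) j G := by
  rintro ⟨hj, q, b, e⟩
  simp only [Prod.mk.injEq, pr_inj] at e
  exact hj e.1.1.symm

theorem IsFact.not_neg {v j G : M} {b : Bool} : ¬ IsFact (v, b, b) j G := by
  rintro ⟨-, q, b', e⟩
  simp only [Prod.mk.injEq] at e
  obtain ⟨-, rfl, e⟩ := e
  cases b <;> simp at e

theorem IsFact.key_ne {l : Lit M} {j G y : M} (h : IsFact l j G) : l.1 ≠ pr 0 y := by
  obtain ⟨hj, q, b, rfl⟩ := h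
  exact fun e => hj (pr_inj.1 e).1

end Pool.Agent.MP_6072c5_lc.H71
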