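import Pool.Agent.MP_6072c5_lc.H71.Switch

/-! Infinitely many independent splittings. -/

set_option linter.unusedSectionVars false
set_option synthInstance.maxSize 100000

namespace Pool.Agent.MP_6072c5_lc.H71

open Pool.Agent.MP_62ad46_lc.H18 Pool.Agent.MP_6072c5_lc.H80 Cardinal

variable {M : Type} [CommSemiring M] [LinearOrder M] [IsPA M]
variable {F : Set M} {p q : Pre M} {C : Rel M}

/-- one splitting -/
theorem exists_split (hS : Sat (aleph 1) M) (hq : IsCond F q)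
    (hI : ∀ r, Ext F r q → ¬ Inv F C r) (hN : ¬ Ins F C q) :
    ∃ s e π, Ext F s q ∧ Ready F C e s π ∧ Disjoint (keys q.T) (keys (π.G0 \ s.T)) := by
  simp only [Ins, not_forall] at hN
  obtain ⟨r, hr, y, b₀, b₁, hl0, hk, k₁, k₀, hE, hno⟩ := hN
  have hc := hr.cond
  have hA : Alt F r {(pr 0 y, !b₀, !b₁)} := by
    refine ⟨Set.finite_singleton _, ?_, closed_single fun _ => not_says_col, ?_⟩
    · rintro l rfl l' rfl -
      rfl
    · rintro l rfl -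
      refine Or.inl ⟨y, !b₀, !b₁, (b₀, b₁), rfl, ?_, hl0⟩
      rw [← hc.col y b₀ b₁ hl0]
      cases b₀ <;> cases b₁ <;> simp
  have hkey : ∀ v ∈ keys (({(pr 0 y, !b₀, !b₁)} : Set (Lit M)) \ r.T), v = pr 0 y := by
    rintro v ⟨l, ⟨rfl, -⟩, rfl⟩
    rfl
  obtain ⟨σ, hσ⟩ := exists_sw hS hc hA
  have hσq : Ext F σ q := hσ.ext hq hr (Set.disjoint_left.2 fun v hv hv' => hk (hkey v hv' ▸ hv))
  have hl1 : (pr 0 y, !b₀, !b₁) ∈ σ.T := hσ.sub rfl
  obtain ⟨s, hs, e, w, hw, hw'⟩ : ∃ s, Ext F s σ ∧ ∃ e w, mem w (if (!e) = true then k₁ else k₀) ∧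
      En1 s.T C e w := by
    by_contra hn
    refine hI σ hσq (Or.inr ⟨k₁, k₀, fun s hs => ⟨fun hE' => ?_, fun w hw h => ?_, fun w hw h => ?_⟩⟩)
    · refine hno ⟨s, hs.trans hσq, hE', hs.T hl1, fun y' c hy h => hs.T ?_⟩
      refine hσ.keep {(pr 0 y', c)} (Set.singleton_subset_iff.2 h)
        (closed_single fun _ => not_says_col) (Set.disjoint_left.2 ?_) rfl
      rintro v ⟨l, rfl, rfl⟩ hv
      exact hy (pr_inj.1 (hkey _ hv)).2
    · exact hn ⟨s, hs, false, w, hw, h⟩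
    · exact hn ⟨s, hs, true, w, hw, h⟩
  have hsq := hs.trans hσq
  have hnm : NM r s := hσ.nm.trans hs.nm hσ.cond hs.cond
  obtain ⟨G0, f0, s0, c0, e0⟩ := hE.closed hS hc
  obtain ⟨G1, f1, s1, -, e1⟩ := hw'.closed hS hs.cond
  have hout : ∀ l ∈ r.T, l ∉ σ.T → l ∉ s.T := fun l hl hn hl' => by
    obtain ⟨l', h1, h2⟩ := hσ.keys_sub (mem_keys hl)
    exact hn (hs.cond.fn l' (hs.T h1) l hl' h2 ▸ h1)
  have hnew : ∀ l ∈ G0, ∃ Δ : Set (Lit M), Δ.Finite ∧ Δ ⊆ s.T ∧ ∀ Δ', Δ ⊆ Δ' → l ∉ s.T →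
      (∃ y b₀ b₁ c, l = (pr 0 y, b₀, b₁) ∧ (b₀ ≠ b₁ ↔ y ∈ F) ∧ (pr 0 y, c) ∈ s.T) ∨
      ∃ m ∈ s.Md, ∃ H, IsFact l m.j H ∧ (∃ b, (l.1, b, b) ∈ s.T) ∧ Legal m.j m.R m.D H ∧
        (∀ G ∈ Facts G0 m.j, Agree H G) ∧ ∃ H' ∈ Facts Δ' m.j, ∀ z a, ap H z a →
          Wm m.R m.D z → ap H' z a ∨ ∃ l' ∈ G0, l' ∉ s.T ∧ say m.t z (lit l') := by
    intro l hl
    by_cases hin : l ∈ σ.T
    · exact ⟨∅, Set.finite_empty, Set.empty_subset _, fun _ _ h => absurd (hs.T hin) h⟩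
    rcases hσ.chg l (s0 hl) hin with h | ⟨⟨l₁, -, -, m, hm, G, -, -, hG, -⟩, ⟨b, hb⟩, h⟩
    · obtain rfl := hc.fn l (s0 hl) _ hl0 (hkey _ h)
      exact ⟨∅, Set.finite_empty, Set.empty_subset _, fun _ _ _ =>
        Or.inl ⟨y, b₀, b₁, (!b₀, !b₁), rfl, hc.col y b₀ b₁ hl0, hs.T hl1⟩⟩
    · obtain ⟨G', ⟨l', h1, h2⟩, -, h3⟩ := h m hm G hG
      have hGr : G ∈ Facts r.T m.j := ⟨l, s0 hl, hG⟩
      refine ⟨{l'}, Set.finite_singleton _, Set.singleton_subset_iff.2 (hs.T h1), fun Δ' hΔ _ =>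
        Or.inr ⟨m, hnm.Md hm, G, hG, ⟨b, hs.T hb⟩, hc.mL m hm G hGr,
          fun G'' h'' => hc.agr _ G hGr G'' (Facts.mono s0 _ h''), G', ⟨l', hΔ rfl, h2⟩,
          fun z a ha hz => (h3 z a ha hz).imp_right ?_⟩⟩
      rintro ⟨l'', a1, a2, a3⟩
      exact ⟨l'', c0.mem hl ⟨m, hm, G, z, a, hG, ha, hz, a3⟩, hout l'' a1 a2, a3⟩
  choose! c hc1 hc2 hc3 using hnew
  obtain ⟨G2, f2, s2, s2', c2⟩ := hs.cond.closure (Γ := G1 ∪ ⋃ l ∈ G0, c l)
    (f1.union (f0.biUnion hc1)) (Set.union_subset s1 (Set.iUnion₂_subset hc2))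
  refine ⟨s, e, ⟨G0, G2, w⟩, hsq, ⟨f0, f2, s2', c0.nm hs.cond hnm s0, c2, ⟨k₁, k₀, e0, hw⟩,
    e1.mono (Set.subset_union_left.trans s2), fun l hl l' hl' => hc.fn l (s0 hl) l' (s0 hl'),
    fun l hl => hc3 l hl G2 (((Set.subset_biUnion_of_mem (u := c) hl).trans
      Set.subset_union_right).trans s2)⟩, Set.disjoint_left.2 ?_⟩
  rintro v ⟨l, hl, rfl⟩ ⟨l', hl', e'⟩
  exact hl'.2 (hc.fn l (hr.T hl) l' (s0 hl'.1) e'.symm ▸ hsq.T hl)

namespace PetalsA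

theorem exists_seq {α : Type} {P : α → Prop} {R : α → α → Prop} {a : α} (h0 : P a)
    (h : ∀ x, P x → ∃ y, P y ∧ R x y) :
    ∃ f : ℕ → α, f 0 = a ∧ (∀ n, P (f n)) ∧ ∀ n, R (f n) (f (n + 1)) := by
  choose! g h1 h2 using h
  have key : ∀ n, P (g^[n] a) := fun n => by
    induction n with
    | zero => exact h0
    | succ n ih => rw [Function.iterate_succ_apply']; exact h1 _ ih
  exact ⟨fun n => g^[n] a, rfl, key, fun n => by
    simp only [Function.iterate_succ_apply']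
    exact h2 _ (key n)⟩

theorem miss {α : Type} {K : Set α} (hK : K.Finite) {S : ℕ → Set α}
    (h : ∀ n m, n < m → Disjoint (S n) (S m)) : ∃ n, Disjoint (S n) K := by
  by_contra hn
  simp only [not_exists, Set.not_disjoint_iff] at hn
  choose f h1 h2 using hn
  refine Set.infinite_of_injective_forall_mem (f := f) (fun n m e => ?_) h2 hK
  rcases lt_trichotomy n m with h3 | h3 | h3
  · exact absurd (e ▸ h1 n) (Set.disjoint_right.1 (h n m h3) (h1 m))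
  · exact h3
  · exact absurd (e ▸ h1 n) (Set.disjoint_left.1 (h m n h3) (h1 m))

/-- a splitting below `q` that avoids `Z` -/
def Split (F : Set M) (C : Rel M) (e : Bool) (Z : Set M) (q s : Pre M) (π : Petal M) : Prop :=
  Ext F s q ∧ Ready F C e s π ∧ Disjoint (keys q.T) (keys (π.G0 \ s.T)) ∧
    Disjoint Z (keys (π.G0 ∪ π.G1))

/-- such splittings exist below every extension -/
def Dense (F : Set M) (C : Rel M) (e : Bool) (Z : Set M) (q : Pre M) : Prop :=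
  ∀ q', Ext F q' q → ∃ s π, Split F C e Z q' s π

variable {e : Bool} {Z : Set M} {q' s : Pre M} {π : Petal M}

theorem Split.up (h : Split F C e Z q' s π) (hq : Ext F q' q) : Split F C e Z q s π :=
  ⟨h.1.trans hq, h.2.1, h.2.2.1.mono_left (keys_mono hq.T), h.2.2.2⟩

theorem keys_ready (h : Ready F C e s π) : keys (π.G0 ∪ π.G1) ⊆ keys s.T := by
  rintro v ⟨l, hl | hl, rfl⟩
  · by_cases h' : l ∈ s.T
    · exact mem_keys h'
    · rcases h.new l hl h' with ⟨y, b₀, b₁, c, rfl, -, h1⟩ | ⟨m, -, H, -, ⟨b, h1⟩, -⟩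
      · exact ⟨_, h1, rfl⟩
      · exact ⟨_, h1, rfl⟩
  · exact mem_keys (h.sub hl)

theorem keys_diff (h : Ready F C e s π) : keys (π.G0 \ s.T) ⊆ keys s.T :=
  (keys_mono (Set.sdiff_subset.trans Set.subset_union_left)).trans (keys_ready h)

theorem step (hq : IsCond F q) (h : Dense F C e Z q) :
    ∃ s π, Split F C e Z q s π ∧ Dense F C e (Z ∪ keys (π.G0 \ s.T)) s := by
  by_contra hn
  obtain ⟨r, h0, h1, h2⟩ := exists_seq (P := fun x : Pre M => Ext F x q)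
    (R := fun x y => Ext F y x ∧ ∃ S, S ⊆ keys y.T ∧ Disjoint (keys x.T) S ∧
      ∀ s π, ¬ Split F C e (Z ∪ S) y s π) (Ext.refl hq) (fun x hx => by
      obtain ⟨s, π, hs⟩ := h x hx
      have hd : ¬ Dense F C e (Z ∪ keys (π.G0 \ s.T)) s := fun hd => hn ⟨s, π, hs.up hx, hd⟩
      simp only [Dense, not_forall, not_exists] at hd
      obtain ⟨y, hy, hd⟩ := hd
      exact ⟨y, (hy.trans hs.1).trans hx, hy.trans hs.1, _,
        (keys_diff hs.2.1).trans (keys_mono hy.T), hs.2.2.1, hd⟩)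
  choose h2 S h3 h4 h5 using h2
  have hl := lim_ext (h1 0).cond h2
  obtain ⟨s, π, hs⟩ := h (lim r) ((hl 0).trans (h1 0))
  obtain ⟨n, hn⟩ := miss (keys_finite (hs.2.1.fin0.union hs.2.1.fin1)) (S := S) fun n m hnm =>
    (h4 m).mono_left ((h3 n).trans (keys_mono (ext_le (h1 0).cond h2 hnm).T))
  have hs' := hs.up (hl (n + 1))
  exact h5 n s π ⟨hs'.1, hs'.2.1, hs'.2.2.1, Set.disjoint_union_left.2 ⟨hs'.2.2.2, hn⟩⟩

theorem start (hS : Sat (aleph 1) M) (hp : IsCond F p) (hI : ∀ q, Ext F q p → ¬ Inv F C q)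
    (hN : ∀ q, Ext F q p → ∃ q', Ext F q' q ∧ ¬ Ins F C q') :
    ∃ q e, Ext F q p ∧ Dense F C e ∅ q := by
  by_cases h : Dense F C true ∅ p
  · exact ⟨p, true, Ext.refl hp, h⟩
  simp only [Dense, not_forall, not_exists] at h
  obtain ⟨q, hq, h⟩ := h
  refine ⟨q, false, hq, fun q' hq' => ?_⟩
  obtain ⟨q'', h1, h2⟩ := hN q' (hq'.trans hq)
  obtain ⟨s, e, π, a1, a2, a3⟩ := exists_split hS h1.cond
    (fun r hr => hI r (hr.trans (h1.trans (hq'.trans hq)))) h2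
  have hs : Split F C e ∅ q' s π := Split.up ⟨a1, a2, a3, Set.empty_disjoint _⟩ h1
  cases e
  · exact ⟨s, π, hs⟩
  · exact absurd (hs.up hq') (h s π)

end PetalsA
open PetalsA

theorem exists_petals (hS : Sat (aleph 1) M) (hp : IsCond F p)
    (hI : ∀ q, Ext F q p → ¬ Inv F C q)
    (hN : ∀ q, Ext F q p → ∃ q', Ext F q' q ∧ ¬ Ins F C q') :
    ∃ (u : Pre M) (e : Bool) (π : ℕ → Petal M), Ext F u p ∧ (∀ n, Ready F C e u (π n)) ∧
      (∀ n, Disjoint (keys p.T) (keys ((π n).G0 \ u.T))) ∧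
      ∀ n m, n ≠ m → Disjoint (keys ((π n).G0 ∪ (π n).G1)) (keys ((π m).G0 \ u.T)) := by
  obtain ⟨q, e, hq, hd⟩ := start hS hp hI hN
  obtain ⟨f, -, h1, h2⟩ := exists_seq
    (P := fun x : Pre M × Set M => Ext F x.1 p ∧ Dense F C e x.2 x.1)
    (R := fun x y => ∃ π, Split F C e x.2 x.1 y.1 π ∧ y.2 = x.2 ∪ keys (π.G0 \ y.1.T))
    (a := (q, ∅)) ⟨hq, hd⟩ (fun x hx => by
      obtain ⟨s, π, a1, a2⟩ := step hx.1.cond hx.2
      exact ⟨(s, x.2 ∪ keys (π.G0 \ s.T)), ⟨a1.1.trans hx.1, a2⟩, π, a1, rfl⟩)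
  choose π h2 h3 using h2
  have hl := lim_ext (r := fun n => (f n).1) (h1 0).1.cond fun n => (h2 n).1
  have hle := fun {n m : ℕ} (h : n ≤ m) =>
    ext_le (r := fun n => (f n).1) (h1 0).1.cond (fun n => (h2 n).1) h
  have hZ : Monotone fun n => (f n).2 := monotone_nat_of_le_succ fun n => by
    simp only [h3 n]
    exact Set.subset_union_left
  have hdf := fun n => (h2 n).2.1.diff_ext (hl (n + 1))
  refine ⟨_, e, π, (hl 0).trans (h1 0).1, fun n => (h2 n).2.1.ext (hl (n + 1)), fun n => ?_,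
    fun n m hnm => ?_⟩
  · rw [hdf]
    exact (h2 n).2.2.1.mono_left (keys_mono (h1 n).1.T)
  · rw [hdf]
    rcases lt_or_gt_of_ne hnm with h | h
    · exact (h2 m).2.2.1.mono_left ((keys_ready (h2 n).2.1).trans (keys_mono (hle h).T))
    · refine ((h2 n).2.2.2.mono_left (le_trans ?_ (hZ (show m + 1 ≤ n from h)))).symm
      simp only [h3 m]
      exact Set.subset_union_right

end Pool.Agent.MP_6072c5_lc.H71
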