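import Pool.Agent.MP_6072c5_lc.H71.Basic

/-! Records, modes and limits. -/

set_option linter.unusedSectionVars false
set_option synthInstance.maxSize 100000

namespace Pool.Agent.MP_6072c5_lc.H71

open Pool.Agent.MP_62ad46_lc.H18 Pool.Agent.MP_6072c5_lc.H80 Cardinal

variable {M : Type} [CommSemiring M] [LinearOrder M] [IsPA M]
variable {F : Set M} {p q b : Pre M} {j t : M}

theorem addR_self (p : Pre M) (j r : M) : (addR p j r).R j = insert r (p.R j) := by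
  ext x
  simp [addR, or_comm]

theorem addR_ne (p : Pre M) {i j : M} (h : i ≠ j) (r : M) : (addR p j r).R i = p.R i := by
  ext x
  simp [addR, h]

theorem exists_fresh_row (hS : Sat (aleph 1) M) {R : Set M} (hR : R.Countable) :
    ∃ t : M, t ≠ 0 ∧ ∀ Y c, pr (pr t Y) c ∉ R := by
  have hc : (insert 0 (⋃ r ∈ R, {t | ∃ Y c, r = pr (pr t Y) c}) : Set M).Countable := by
    refine (hR.biUnion fun r _ => Set.Subsingleton.countable ?_).insert 0
    rintro t ⟨Y, c, e⟩ t' ⟨Y', c', e'⟩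
    rw [e, pr_inj, pr_inj] at e'
    exact e'.1.1
  obtain ⟨t, ht⟩ := exists_not_mem hS hc (f := id) fun _ _ h => h
  exact ⟨t, fun h => ht (Or.inl h), fun Y c h => ht (Or.inr (Set.mem_biUnion h ⟨Y, c, rfl⟩))⟩

theorem addR_ext (hp : IsCond F p) (hf : Free p j) {Y c : M} (ht : t ≠ 0)
    (ht' : ∀ Y c, pr (pr t Y) c ∉ p.R j) (hc : Lists c (p.R j) (Facts p.T j)) :
    Ext F (addR p j (pr (pr t Y) c)) p := by
  have hw : ∀ z, lay (pr (pr t Y) c) z → Wm (p.R j) (Facts p.T j) z := fun z hz =>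
    hc.wm.2 fun n hn => hz.2 n (failL_iff.2 hn)
  have hsub : ∀ i, p.R i ⊆ (addR p j (pr (pr t Y) c)).R i := fun i x hx => Or.inl hx
  refine ⟨⟨hp.cT, fun i => ?_, hp.cM, hp.cZ, hp.fn, hp.col, hp.agr, ?_, ?_, ?_, ?_, hp.mfn,
    fun m hm => (addR_ne p (hf m hm) _).trans (hp.mR m hm), hp.mD, hp.mL, hp.mZ, hp.fc⟩,
    subset_rfl, hsub, subset_rfl, subset_rfl, fun _ _ => subset_rfl,
    fun _ _ _ h => LegalW.self h, ?_, fun m hm hf => absurd rfl (hf m hm)⟩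
  · exact ((hp.cR i).insert (pr (pr t Y) c)).mono fun x hx => hx.elim Or.inr fun h => Or.inl h.2
  · rintro i G hG r (hr | ⟨rfl, rfl⟩) z u h1 h2
    · exact hp.i1 i G hG r hr z u h1 h2
    · exact absurd h2 ((hw z h1).2 G hG u)
  · rintro i r (hr | ⟨rfl, rfl⟩) r' (hr' | ⟨e, rfl⟩) z h1 h2
    · exact hp.dis i r hr r' hr' z h1 h2
    · exact absurd h1.1 ((hw z h2).1 r (e ▸ hr))
    · exact absurd h2.1 ((hw z h1).1 r' hr')
    · rfl
  · have old : ∀ i, ∀ r ∈ p.R i, ∀ z, fail r z →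
        (∃ r' ∈ (addR p j (pr (pr t Y) c)).R i, lay r' z) ∨ ∃ G ∈ Facts p.T i, ∃ u, ap G z u :=
      fun i r hr z hz => (hp.tri i r hr z hz).imp_left fun ⟨r', h1, h2⟩ => ⟨r', Or.inl h1, h2⟩
    rintro i r (hr | ⟨rfl, rfl⟩) z hz
    · exact old i r hr z hz
    · by_cases hl : lay (pr (pr t Y) c) z
      · exact Or.inl ⟨_, Or.inr ⟨rfl, rfl⟩, hl⟩
      · simp only [lay, hz, true_and, not_forall, not_not] at hl
        obtain ⟨n, ⟨r, h1, h2⟩ | ⟨G, u, h1, h2⟩⟩ := hl.imp fun n => failL_iff.1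
        · exact old _ r ((hc.hR r).2 ⟨n, h1⟩) z h2
        · exact Or.inr ⟨G, (hc.hD G).2 ⟨n, h1⟩, u, h2⟩
  · rintro i t' Y' c' (hr | ⟨rfl, e⟩)
    · refine ⟨(hp.i3 i t' Y' c' hr).1, ?_⟩
      rintro Y'' c'' (hr' | ⟨rfl, e⟩)
      · exact (hp.i3 i t' Y' c' hr).2 Y'' c'' hr'
      · obtain rfl := (pr_inj.1 (pr_inj.1 e).1).1
        exact absurd hr (ht' _ _)
    · obtain ⟨rfl, rfl⟩ := pr_inj.1 (pr_inj.1 e).1
      refine ⟨ht, ?_⟩
      rintro Y'' c'' (hr' | ⟨-, e'⟩)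
      · exact absurd hr' (ht' _ _)
      · exact (pr_inj.1 (pr_inj.1 e').1).2.symm
  · rintro i - r (hr | ⟨rfl, rfl⟩) hr'
    · exact absurd hr hr'
    · exact hw

theorem protect_ext (hp : IsCond F p) (hf : Free p j) : Ext F (protect p j) p :=
  ⟨⟨hp.cT, hp.cR, hp.cM, hp.cZ.insert j, hp.fn, hp.col, hp.agr, hp.i1, hp.dis, hp.tri, hp.i3,
      hp.mfn, hp.mR, hp.mD, hp.mL, fun m hm h => h.elim (hf m hm) (hp.mZ m hm), hp.fc⟩,
    subset_rfl, fun _ => subset_rfl, subset_rfl, Set.subset_insert _ _, fun _ _ => subset_rfl,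
    fun _ _ _ h => LegalW.self h, fun _ _ _ h h' => absurd h h',
    fun m hm hf => absurd rfl (hf m hm)⟩

theorem modeOn_cond (hb : IsCond F b) (hj : j ∈ b.Z) : IsCond F (modeOn b j t) := by
  have hf := hb.free_of_mem hj
  refine ⟨hb.cT, hb.cR, hb.cM.insert _, hb.cZ.mono Set.sdiff_subset, hb.fn, hb.col, hb.agr, hb.i1,
    hb.dis, hb.tri, hb.i3, ?_, ?_, ?_, ?_, ?_, fun l hl => ?_⟩
  · rintro m (rfl | hm) m' (rfl | hm') e
    · rfl
    · exact absurd e.symm (hf m' hm')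
    · exact absurd e (hf m hm)
    · exact hb.mfn m hm m' hm' e
  · rintro m (rfl | hm)
    · rfl
    · exact hb.mR m hm
  · rintro m (rfl | hm)
    · exact subset_rfl
    · exact hb.mD m hm
  · rintro m (rfl | hm)
    · exact fun G hG => LegalW.self hG
    · exact hb.mL m hm
  · rintro m (rfl | hm)
    · exact fun h => h.2 rfl
    · exact fun h => hb.mZ m hm h.1
  · obtain ⟨Δ, h1, h2, h3, h4⟩ := hb.fc l hl
    refine ⟨Δ, h1, h2, h3, ?_⟩
    rintro l' hl' y ⟨m, rfl | hm, G, z, u, a1, a2, a3, a4⟩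
    · exact absurd a2 (a3.2 G ⟨l', h2 hl', a1⟩ u)
    · exact h4 l' hl' y ⟨m, hm, G, z, u, a1, a2, a3, a4⟩

theorem modeOn_ext (hj : j ∉ q.Z) (h : Ext F b (protect q j)) : Ext F (modeOn b j t) q := by
  refine ⟨modeOn_cond h.cond (h.nm.Z (Or.inl rfl)), h.T, h.nm.R,
    h.nm.Md.trans (Set.subset_insert _ _),
    fun x hx => ⟨h.nm.Z (Or.inr hx), fun e => hj ((show x = j from e) ▸ hx)⟩, h.nm.fs, h.nm.e1,
    h.nm.e2, ?_⟩
  rintro m (rfl | hm) hf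
  · exact h.nm.fs _ hf
  · exact h.nm.e3 m hm hf

theorem unmode_cond (hp : IsCond F p) (j : M) : IsCond F (unmode p j) := by
  refine ⟨hp.cT, hp.cR, hp.cM.mono fun _ h => h.1, hp.cZ.insert j, hp.fn, hp.col, hp.agr, hp.i1,
    hp.dis, hp.tri, hp.i3, fun m hm m' hm' => hp.mfn m hm.1 m' hm'.1, fun m hm => hp.mR m hm.1,
    fun m hm => hp.mD m hm.1, fun m hm => hp.mL m hm.1,
    fun m hm h => h.elim hm.2 (hp.mZ m hm.1), fun l hl => ?_⟩
  obtain ⟨Δ, h1, h2, h3, h4⟩ := hp.fc l hl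
  exact ⟨Δ, h1, h2, h3, h4.anti fun _ h => h.1⟩

theorem unmode_ext (hb : IsCond F b) (hj : j ∈ b.Z) (h : Ext F p (modeOn b j t)) :
    Ext F (unmode p j) b := by
  have hf := hb.free_of_mem hj
  have hm : modeAt b j t ∈ p.Md := h.nm.Md (Or.inl rfl)
  have fr : ∀ i, i ≠ j → Free b i → Free (modeOn b j t) i := by
    rintro i hi hf m (rfl | hm)
    · exact hi.symm
    · exact hf m hm
  refine ⟨unmode_cond h.cond j, h.T, h.nm.R, fun m hm => ⟨h.nm.Md (Or.inr hm), hf m hm⟩,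
    fun x hx => ?_, fun i _ => Facts.mono h.T i, fun i hi G hG => ?_, fun i hi r hr hr' => ?_,
    fun m hm hi => h.nm.e3 m hm.1 (fr _ hm.2 hi)⟩
  · by_cases e : x = j
    · exact Or.inl e
    · exact Or.inr (h.nm.Z ⟨hx, e⟩)
  · by_cases e : i = j
    · subst e
      exact h.cond.mL _ hm G hG
    · exact h.nm.e1 i (fr i e hi) G hG
  · by_cases e : i = j
    · subst e
      exact absurd ((h.cond.mR _ hm).le hr) hr'
    · exact h.nm.e2 i (fr i e hi) r hr hr'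

/-! ### Limits -/

section lim
variable {r : ℕ → Pre M}

theorem nm_le (hc : ∀ n, IsCond F (r n)) (hn : ∀ n, NM (r n) (r (n + 1))) {n m : ℕ}
    (h : n ≤ m) : NM (r n) (r m) := by
  induction h with
  | refl => exact NM.refl _
  | step _ ih => exact ih.trans (hn _) (hc _) (hc _)

/-- facts without messages are never removed -/
def Stable (r : ℕ → Pre M) : Prop :=
  ∀ n, ∀ l ∈ (r n).T, (∃ j G, IsFact l j G) → (∀ y, ¬ Says (r n).Md l y) → l ∈ (r (n + 1)).T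

theorem Stable.mem_lim (hs : Stable r) (hc : ∀ n, IsCond F (r n))
    (hn : ∀ n, NM (r n) (r (n + 1))) {n : ℕ} {l : Lit M} (hl : l ∈ (r n).T)
    (hf : ∃ j G, IsFact l j G) (hy : ∀ y, ¬ Says (r n).Md l y) : l ∈ (lim r).T := by
  refine ⟨n, fun m hm => ?_⟩
  induction hm with
  | refl => exact hl
  | step h ih => exact hs _ l ih hf fun y h' => hy y (says_nm (hc _) (nm_le hc hn h) hl h')

theorem lim_fact {G : M} (h : G ∈ Facts (lim r).T j) (n : ℕ) :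
    ∃ k, n ≤ k ∧ ∀ m, k ≤ m → G ∈ Facts (r m).T j := by
  obtain ⟨l, ⟨k, hk⟩, h⟩ := h
  exact ⟨max n k, le_max_left _ _, fun m hm => ⟨l, hk m ((le_max_right _ _).trans hm), h⟩⟩

theorem lim_base (hs : Stable r) (hc : ∀ n, IsCond F (r n)) (hn : ∀ n, NM (r n) (r (n + 1)))
    {n : ℕ} {m : Mode M} (hm : m ∈ (r n).Md) : m.D ⊆ Facts (lim r).T m.j := by
  intro G hG
  obtain ⟨l, hl, h⟩ := (hc n).mD m hm hG
  refine ⟨l, hs.mem_lim hc hn hl ⟨_, _, h⟩ ?_, h⟩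
  rintro y ⟨m', hm', G', z, u, a1, a2, a3, -⟩
  obtain rfl := (hc n).mfn m' hm' m hm (a1.unique h).1
  exact a3.2 G hG u ((a1.unique h).2 ▸ a2)

theorem lim_free (hs : Stable r) (hc : ∀ n, IsCond F (r n)) (hn : ∀ n, NM (r n) (r (n + 1)))
    {n : ℕ} (hf : Free (r n) j) : Facts (r n).T j ⊆ Facts (lim r).T j := by
  rintro G ⟨l, hl, h⟩
  refine ⟨l, hs.mem_lim hc hn hl ⟨_, _, h⟩ ?_, h⟩
  rintro y ⟨m', hm', G', z, u, a1, -⟩
  exact hf m' hm' (a1.unique h).1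

theorem lim_nm (hs : Stable r) (hc : ∀ n, IsCond F (r n)) (hn : ∀ n, NM (r n) (r (n + 1)))
    (n : ℕ) : NM (r n) (lim r) := by
  refine ⟨fun j x hx => ⟨n, hx⟩, fun m hm => ⟨n, hm⟩, fun j hj => ⟨n, hj⟩,
    fun j hf => lim_free hs hc hn hf, fun j hf G hG => ?_, ?_, ?_⟩
  · obtain ⟨k, h1, h2⟩ := lim_fact hG n
    exact (nm_le hc hn h1).e1 j hf G (h2 k le_rfl)
  · rintro j hf x ⟨k, hx⟩
    exact (nm_le hc hn (le_max_left n k)).e2 j hf x ((nm_le hc hn (le_max_right n k)).R j hx)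
  · rintro m ⟨k, hm⟩
    exact (nm_le hc hn (le_max_left n k)).e3 m ((nm_le hc hn (le_max_right n k)).Md hm)

theorem says_lim (hc : ∀ n, IsCond F (r n)) (hn : ∀ n, NM (r n) (r (n + 1))) {n : ℕ}
    {l : Lit M} (hl : l ∈ (r n).T) {y : M} (hy : Says (lim r).Md l y) : Says (r n).Md l y := by
  obtain ⟨m, ⟨k, hm⟩, h⟩ := hy
  exact says_nm (hc _) (nm_le hc hn (le_max_left n k)) hl
    ⟨m, (nm_le hc hn (le_max_right n k)).Md hm, h⟩

theorem lim_cond (hs : Stable r) (hc : ∀ n, IsCond F (r n)) (hn : ∀ n, NM (r n) (r (n + 1))) :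
    IsCond F (lim r) := by
  have le := fun {n m : ℕ} (h : n ≤ m) => nm_le hc hn h
  refine ⟨(Set.countable_iUnion fun n => (hc n).cT).mono
      fun l ⟨n, h⟩ => Set.mem_iUnion.2 ⟨n, h n le_rfl⟩,
    fun j => (Set.countable_iUnion fun n => (hc n).cR j).mono fun l h => Set.mem_iUnion.2 h,
    (Set.countable_iUnion fun n => (hc n).cM).mono fun l h => Set.mem_iUnion.2 h,
    (Set.countable_iUnion fun n => (hc n).cZ).mono fun l h => Set.mem_iUnion.2 h,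
    ?_, ?_, ?_, ?_, ?_, ?_, ?_, ?_, ?_, ?_, ?_, ?_, ?_⟩
  · rintro l ⟨n, h⟩ l' ⟨n', h'⟩
    exact (hc (max n n')).fn l (h _ (le_max_left _ _)) l' (h' _ (le_max_right _ _))
  · rintro y b₀ b₁ ⟨n, h⟩
    exact (hc n).col y b₀ b₁ (h n le_rfl)
  · intro j G hG H hH
    obtain ⟨k, -, h2⟩ := lim_fact hG 0
    obtain ⟨k', h3, h4⟩ := lim_fact hH k
    exact (hc k').agr j G (h2 _ h3) H (h4 _ le_rfl)
  · rintro j G hG x ⟨n, hx⟩
    obtain ⟨k, h1, h2⟩ := lim_fact hG n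
    exact (hc k).i1 j G (h2 _ le_rfl) x ((le h1).R j hx)
  · rintro j x ⟨n, hx⟩ x' ⟨n', hx'⟩
    exact (hc (max n n')).dis j x ((le (le_max_left _ _)).R j hx) x'
      ((le (le_max_right _ _)).R j hx')
  · rintro j x ⟨n, hx⟩ z hz
    rcases (hc n).tri j x hx z hz with ⟨x', h1, h2⟩ | ⟨G, hG, u, hu⟩
    · exact Or.inl ⟨x', ⟨n, h1⟩, h2⟩
    · by_cases hf : Free (r n) j
      · exact Or.inr ⟨G, lim_free hs hc hn hf hG, u, hu⟩
      · simp only [Free, not_forall, not_not] at hf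
        obtain ⟨m, hm, rfl⟩ := hf
        rcases LegalW.old ((hc n).mL m hm G hG) hu with h | ⟨H, hH, h⟩ | ⟨x', h1, h2⟩
        · exact absurd hz (h.1 x ((hc n).mR m hm ▸ hx))
        · exact Or.inr ⟨H, lim_base hs hc hn hm hH, u, h⟩
        · exact Or.inl ⟨x', ⟨n, ((hc n).mR m hm).ge h1⟩, h2.1⟩
  · rintro j t Y c ⟨n, hx⟩
    refine ⟨((hc n).i3 j t Y c hx).1, ?_⟩
    rintro Y' c' ⟨n', hx'⟩
    exact ((hc (max n n')).i3 j t Y c ((le (le_max_left _ _)).R j hx)).2 Y' c'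
      ((le (le_max_right _ _)).R j hx')
  · rintro m ⟨n, hm⟩ m' ⟨n', hm'⟩
    exact (hc (max n n')).mfn m ((le (le_max_left _ _)).Md hm) m'
      ((le (le_max_right _ _)).Md hm')
  · rintro m ⟨n, hm⟩
    refine Set.Subset.antisymm ?_ fun x hx => ⟨n, ((hc n).mR m hm).ge hx⟩
    rintro x ⟨k, hx⟩
    exact ((hc (max n k)).mR m ((le (le_max_left _ _)).Md hm)).le
      ((le (le_max_right _ _)).R _ hx)
  · rintro m ⟨n, hm⟩
    exact lim_base hs hc hn hm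
  · rintro m ⟨n, hm⟩ G hG
    obtain ⟨k, h1, h2⟩ := lim_fact hG n
    exact (hc k).mL m ((le h1).Md hm) G (h2 _ le_rfl)
  · rintro m ⟨n, hm⟩ ⟨k, hk⟩
    exact (hc (max n k)).mZ m ((le (le_max_left _ _)).Md hm) ((le (le_max_right _ _)).Z hk)
  · rintro l ⟨n, h⟩
    have cl : ∀ k, n ≤ k → ∃ Δ, Δ.Finite ∧ Δ ⊆ (r k).T ∧ l ∈ Δ ∧ Closed (lim r).Md Δ := by
      intro k hk
      obtain ⟨Δ, h1, h2, h3, h4⟩ := (hc k).fc l (h k hk)
      exact ⟨Δ, h1, h2, h3, fun l' hl' y hy => h4 l' hl' y (says_lim hc hn (h2 hl') hy)⟩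
    choose! Δ h1 h2 h3 h4 using cl
    refine ⟨{x | ∀ k, n ≤ k → x ∈ Δ k}, (h1 n le_rfl).subset fun x hx => hx n le_rfl,
      fun x hx => ⟨n, fun k hk => h2 k hk (hx k hk)⟩, h3, fun l' hl' y hy => ?_⟩
    obtain ⟨l'', -, rfl⟩ := h4 n le_rfl l' (hl' n le_rfl) y hy
    exact ⟨l'', fun k hk => (h4 k hk).mem (hl' k hk) hy, rfl⟩

theorem ext_le (h0 : IsCond F (r 0)) (h : ∀ n, Ext F (r (n + 1)) (r n)) {n m : ℕ} (hm : n ≤ m) :
    Ext F (r m) (r n) := by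
  induction hm with
  | refl => exact Ext.refl (by cases n; exacts [h0, (h _).cond])
  | step _ ih => exact (h _).trans ih

theorem lim_ext (h0 : IsCond F (r 0)) (h : ∀ n, Ext F (r (n + 1)) (r n)) (n : ℕ) :
    Ext F (lim r) (r n) := by
  have hc : ∀ n, IsCond F (r n) := fun n => (ext_le h0 h le_rfl).cond
  have hs : Stable r := fun n l hl _ _ => (h n).T hl
  exact ⟨lim_cond hs hc fun n => (h n).nm, fun l hl => ⟨n, fun m hm => (ext_le h0 h hm).T hl⟩,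
    lim_nm hs hc (fun n => (h n).nm) n⟩

theorem lim_T {l : Lit M} (h : l ∈ (lim r).T) : ∃ n, l ∈ (r n).T := h.imp fun n hn => hn n le_rfl

end lim

end Pool.Agent.MP_6072c5_lc.H71
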