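import Pool.Agent.MP_6072c5_lc.H71.Dz

/-! Consequences of countable saturation. -/

set_option linter.unusedSectionVars false
set_option synthInstance.maxSize 100000

namespace Pool.Agent.MP_6072c5_lc.H71

open Pool.Agent.MP_62ad46_lc.H18 Pool.Agent.MP_6072c5_lc.H80 Cardinal

variable {M : Type} [CommSemiring M] [LinearOrder M] [IsPA M]

/-- saturation for a countable index set -/
theorem sat_cnt (hS : Sat (aleph 1) M) {ι : Type} (S : ι → M → Prop) {I : Set ι}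
    (hI : I.Countable) (hA : ∀ i ∈ I, Ar fun v => S i (v 0))
    (h : ∀ J, J ⊆ I → J.Finite → ∃ x, ∀ i ∈ J, S i x) : ∃ x, ∀ i ∈ I, S i x := by
  obtain ⟨x, hx⟩ := hS I (fun i => S i.1)
    ((Cardinal.le_aleph0_iff_set_countable.2 hI).trans_lt aleph0_lt_aleph_one)
    (fun i => hA i.1 i.2) fun F => by
      obtain ⟨x, hx⟩ := h (Subtype.val '' (F : Set I)) (by rintro _ ⟨i, -, rfl⟩; exact i.2)
        (F.finite_toSet.image _)
      exact ⟨x, fun i hi => hx i.1 ⟨i, hi, rfl⟩⟩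
  exact ⟨x, fun i hi => hx ⟨i, hi⟩⟩

/-- the same with one more fixed condition -/
theorem sat_base (hS : Sat (aleph 1) M) {P : M → Prop} (hP : Ar fun v => P (v 0)) {ι : Type}
    (S : ι → M → Prop) {I : Set ι} (hI : I.Countable) (hA : ∀ i ∈ I, Ar fun v => S i (v 0))
    (h : ∀ J, J ⊆ I → J.Finite → ∃ x, P x ∧ ∀ i ∈ J, S i x) : ∃ x, P x ∧ ∀ i ∈ I, S i x := by
  rcases I.eq_empty_or_nonempty with rfl | ⟨i₀, hi₀⟩
  · exact h ∅ subset_rfl Set.finite_empty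
  · obtain ⟨x, hx⟩ := sat_cnt hS (fun i x => P x ∧ S i x) hI (fun i hi => hP.and (hA i hi))
      fun J hJ hf => by
        obtain ⟨x, hx, hx'⟩ := h J hJ hf
        exact ⟨x, fun i hi => ⟨hx, hx' i hi⟩⟩
    exact ⟨x, (hx i₀ hi₀).1, fun i hi => (hx i hi).2⟩

/-- the same for two families -/
theorem sat_two (hS : Sat (aleph 1) M) {P : M → Prop} (hP : Ar fun v => P (v 0)) {ι κ : Type}
    (S : ι → M → Prop) (T : κ → M → Prop) {I : Set ι} {J : Set κ} (hI : I.Countable)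
    (hJ : J.Countable) (hA : ∀ i ∈ I, Ar fun v => S i (v 0)) (hB : ∀ j ∈ J, Ar fun v => T j (v 0))
    (h : ∀ I₀ J₀, I₀ ⊆ I → J₀ ⊆ J → I₀.Finite → J₀.Finite →
      ∃ x, P x ∧ (∀ i ∈ I₀, S i x) ∧ ∀ j ∈ J₀, T j x) :
    ∃ x, P x ∧ (∀ i ∈ I, S i x) ∧ ∀ j ∈ J, T j x := by
  obtain ⟨x, hx, hx'⟩ := sat_base hS hP (Sum.elim S T) (I := Sum.inl '' I ∪ Sum.inr '' J)
    ((hI.image _).union (hJ.image _))
    (by
      rintro _ (⟨i, hi, rfl⟩ | ⟨j, hj, rfl⟩)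
      · exact hA i hi
      · exact hB j hj)
    fun L hL hf => by
      obtain ⟨x, h1, h2, h3⟩ := h (Sum.inl ⁻¹' L) (Sum.inr ⁻¹' L)
        (fun i hi => by simpa using hL hi) (fun j hj => by simpa using hL hj)
        (hf.preimage Sum.inl_injective.injOn) (hf.preimage Sum.inr_injective.injOn)
      refine ⟨x, h1, ?_⟩
      rintro (i | j) hi
      · exact h2 i hi
      · exact h3 j hi
  exact ⟨x, hx, fun i hi => hx' (Sum.inl i) (Or.inl ⟨i, hi, rfl⟩),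
    fun j hj => hx' (Sum.inr j) (Or.inr ⟨j, hj, rfl⟩)⟩

/-- comprehension for a bounded definable set -/
theorem compr_bd {P : M → Prop} (hP : Ar fun v => P (v 0)) (n : M) (hb : ∀ x, P x → x < n) :
    ∃ k, ∀ x, mem x k ↔ P x := by
  obtain ⟨k, hk⟩ := compr hP n
  exact ⟨k, fun x => (hk x).trans ⟨fun h => h.2, fun h => ⟨hb x h, h⟩⟩⟩

theorem subcover (hS : Sat (aleph 1) M) {ι : Type} (S : ι → M → Prop) {I : Set ι}
    (hI : I.Countable) (hA : ∀ i ∈ I, Ar fun v => S i (v 0)) {K : M}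
    (h : ∀ x, mem x K → ∃ i ∈ I, S i x) :
    ∃ J, J ⊆ I ∧ J.Finite ∧ ∀ x, mem x K → ∃ i ∈ J, S i x := by
  by_contra hn
  push Not at hn
  obtain ⟨x, hx, hx'⟩ := sat_base hS (P := fun x => mem x K) (by exact ArI.out)
    (fun i x => ¬ S i x) hI (fun i hi => (hA i hi).not) hn
  obtain ⟨i, hi, hi'⟩ := h x hx
  exact hx' i hi hi'

theorem finite_of_countable (hS : Sat (aleph 1) M) {k : M} (h : {x | mem x k}.Countable) :
    {x | mem x k}.Finite := by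
  obtain ⟨J, -, hJ, H⟩ := subcover hS (fun i x : M => x = i) h (fun i _ => by exact ArI.out)
    (K := k) fun x hx => ⟨x, hx, rfl⟩
  refine hJ.subset fun x hx => ?_
  obtain ⟨i, hi, rfl⟩ := H x hx
  exact hi

theorem exists_fresh (hS : Sat (aleph 1) M) {k : M} (hk : {x | mem x k}.Infinite) {S : Set M}
    (h : S.Countable) : ∃ x, mem x k ∧ x ∉ S := by
  by_contra hn
  push Not at hn
  exact hk (finite_of_countable hS (h.mono fun x hx => hn x hx))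

theorem exists_not_mem (hS : Sat (aleph 1) M) {S : Set M} (h : S.Countable) {f : M → M}
    (hf : Function.Injective f) : ∃ x, f x ∉ S := by
  by_contra hn
  push Not at hn
  have hc : (Set.univ : Set M).Countable :=
    (h.preimage_of_injOn (f := f) hf.injOn).mono fun x _ => hn x
  have : Infinite M := Infinite.of_injective (Nat.cast : ℕ → M) Nat.cast_injective
  obtain ⟨x, hx⟩ := sat_cnt hS (fun i x : M => x ≠ i) hc (fun i _ => by exact ArI.out)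
    fun J _ hJ => by
      obtain ⟨x, hx⟩ := hJ.exists_notMem
      exact ⟨x, fun i hi e => hx (e ▸ hi)⟩
  exact hx x trivial rfl

theorem exists_lists (hS : Sat (aleph 1) M) {R D : Set M} (hR : R.Countable) (hD : D.Countable) :
    ∃ c, Lists c R D := by
  have h20 : (2 : M) ≠ 0 := two_ne_zero
  have h21 : (2 : M) ≠ 1 := one_lt_two.ne'
  obtain ⟨f, hf⟩ := (((hR.image (pr 0)).union (hD.image (pr 1))).insert (pr 2 0)).exists_eq_range
    ⟨_, Set.mem_insert _ _⟩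
  obtain ⟨c, hc⟩ := hS.code f
  have key : ∀ x, (∃ n : ℕ, mem (pr (n : M) x) c) ↔
      x = pr 2 0 ∨ (∃ r ∈ R, pr 0 r = x) ∨ ∃ G ∈ D, pr 1 G = x := fun x => by
    have : x ∈ Set.range f ↔ x ∈ insert (pr 2 0) (pr 0 '' R ∪ pr 1 '' D) := by rw [← hf]
    simp only [hc]
    exact ⟨fun ⟨n, hn⟩ => this.1 ⟨n, hn.symm⟩, fun H => (this.2 H).imp fun n hn => hn.symm⟩
  refine ⟨c, fun r => ?_, fun G => ?_, fun n => ?_⟩
  · rw [key]
    simp [pr_inj, h20.symm]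
  · rw [key]
    simp [pr_inj, h21.symm]
  · exact (Set.finite_singleton (f n)).subset fun x hx => (hc n x).1 hx

theorem rich (hS : Sat (aleph 1) M) {R D : Set M} (hR : R.Countable) (hD : D.Countable)
    (h3 : ∀ t Y c, pr (pr t Y) c ∈ R → t ≠ 0 ∧ ∀ Y' c', pr (pr t Y') c' ∈ R → Y = Y')
    {t : M} (ht : t ≠ 0) (ht' : ∀ Y c, pr (pr t Y) c ∉ R) (i : Bool) (Y : M) :
    ∃ z, Wm R D z ∧ prt i z ∧ ∀ y, say t z y ↔ mem y Y := by
  suffices H : ∃ z, (prt i z ∧ ∀ y, mem (pr t y) z ↔ mem y Y) ∧ (∀ r ∈ R, ¬ fail r z) ∧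
      ∀ G ∈ D, ∀ u, ¬ mem (pr z u) G by
    obtain ⟨z, h1, h2⟩ := H
    exact ⟨z, h2, h1⟩
  refine sat_two hS (P := fun z => prt i z ∧ ∀ y, mem (pr t y) z ↔ mem y Y) (by exact ArI.out)
    (fun r z => ¬ fail r z) (fun G z => ∀ u, ¬ mem (pr z u) G) hR hD
    (fun r _ => by exact ArI.out) (fun G _ => by exact ArI.out) fun R₀ D₀ hR₀ hD₀ fR fD => ?_
  obtain ⟨k, hk⟩ := exists_code_of_finite fR
  obtain ⟨k', hk'⟩ := exists_code_of_finite fD
  obtain ⟨s, hs⟩ : ∃ s : M, s = t + k + k' + 1 := ⟨_, rfl⟩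
  have st : t < s := hs ▸ lt_succ_iff.2 (le_self_add.trans le_self_add)
  have sk : k < s := hs ▸ lt_succ_iff.2 (le_add_self.trans le_self_add)
  have sk' : k' < s := hs ▸ lt_succ_iff.2 le_add_self
  have s0 : s ≠ 0 := ((IsPA.nonneg t).trans_lt st).ne'
  have lk : ∀ {t' Y' c : M}, mem (pr (pr t' Y') c) k → t' < k ∧ Y' < k := fun h =>
    ⟨((le_pr_left _ _).trans (le_pr_left _ _)).trans_lt (lt_of_mem h),
      ((le_pr_right _ _).trans (le_pr_left _ _)).trans_lt (lt_of_mem h)⟩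
  have hi : ArI fun _ : ℕ → M => i = true := ⟨Ar.const _⟩
  obtain ⟨z, hz⟩ := compr_bd (P := fun x : M => (x = pr 0 0 ∧ i = true) ∨
      (∃ y, mem y Y ∧ x = pr t y) ∨
      (∃ t' Y' c y, mem (pr (pr t' Y') c) k ∧ mem y Y' ∧ x = pr t' y) ∨ x = pr s 0)
    (by exact ArI.out) (pr t Y + pr k k + pr s 0 + 1) (by
      rintro x (⟨rfl, -⟩ | ⟨y, hy, rfl⟩ | ⟨t', Y', c, y, h1, h2, rfl⟩ | rfl) <;>
        rw [lt_succ_iff]
      · exact (pr_mono (IsPA.nonneg s) le_rfl).trans le_add_self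
      · exact ((pr_mono le_rfl (lt_of_mem hy).le).trans le_self_add).trans le_self_add
      · exact ((pr_mono (lk h1).1.le ((lt_of_mem h2).trans (lk h1).2).le).trans
          le_add_self).trans le_self_add
      · exact le_add_self)
  have sz : s < z := (le_pr_left _ _).trans_lt (lt_of_mem ((hz _).2 (Or.inr (Or.inr (Or.inr rfl)))))
  refine ⟨z, ⟨?_, fun y => ?_⟩, fun r hr => ?_, fun G hG u hu => ?_⟩
  · refine (hz _).trans ⟨?_, fun h => Or.inl ⟨rfl, h⟩⟩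
    rintro (⟨-, h⟩ | ⟨y, -, e⟩ | ⟨t', Y', c, y, h1, -, e⟩ | e)
    · exact h
    · exact absurd (pr_inj.1 e).1.symm ht
    · exact absurd (pr_inj.1 e).1.symm (h3 _ _ _ (hR₀ ((hk _).1 h1))).1
    · exact absurd (pr_inj.1 e).1.symm s0
  · refine (hz _).trans ⟨?_, fun h => Or.inr (Or.inl ⟨y, h, rfl⟩)⟩
    rintro (⟨e, -⟩ | ⟨y', h, e⟩ | ⟨t', Y', c, y', h1, -, e⟩ | e)
    · exact absurd (pr_inj.1 e).1 ht
    · exact (pr_inj.1 e).2 ▸ h
    · obtain rfl := (pr_inj.1 e).1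
      exact absurd (hR₀ ((hk _).1 h1)) (ht' _ _)
    · exact absurd (pr_inj.1 e).1 st.ne
  · rintro ⟨t₁, Y₁, c₁, rfl, hf⟩
    refine hf fun y => (hz _).trans
      ⟨?_, fun h => Or.inr (Or.inr (Or.inl ⟨t₁, Y₁, c₁, y, (hk _).2 hr, h, rfl⟩))⟩
    rintro (⟨e, -⟩ | ⟨y', h, e⟩ | ⟨t', Y', c, y', h1, h2, e⟩ | e)
    · exact absurd (pr_inj.1 e).1 (h3 _ _ _ (hR₀ hr)).1
    · obtain rfl := (pr_inj.1 e).1
      exact absurd (hR₀ hr) (ht' _ _)
    · obtain ⟨rfl, rfl⟩ := pr_inj.1 e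
      rw [(h3 _ _ _ (hR₀ hr)).2 _ _ (hR₀ ((hk _).1 h1))]
      exact h2
    · exact absurd (pr_inj.1 e).1 ((lk ((hk _).2 hr)).1.trans sk).ne
  · have h1 : z < G := (le_pr_left _ _).trans_lt (lt_of_mem hu)
    have h2 : G < k' := lt_of_mem ((hk' _).2 hG)
    exact absurd ((h1.trans h2).trans sk') (not_lt.2 sz.le)

theorem block (hS : Sat (aleph 1) M) (R D : ℕ → Set M) (hR : ∀ n, (R n).Countable)
    (hD : ∀ n, (D n).Countable) (z : ℕ → M) (i : Bool) (hi : ∀ n, prt i (z n))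
    (hz : ∀ k n, k ≤ n → Wm (R k) (D k) (z n)) :
    ∃ K, (∀ n, mem (z n) K) ∧ (∀ x, mem x K → prt i x) ∧
      ∀ k x, mem x K → Wm (R k) (D k) x ∨ ∃ n < k, x = z n := by
  choose c hc using fun k => exists_lists hS (hR k) (hD k)
  choose e he using fun k : ℕ => exists_code_of_finite ((Set.finite_Iio k).image z)
  obtain ⟨K, h1, h2⟩ := sat_base hS (P := fun K => ∀ x, mem x K → prt i x) (by exact ArI.out)
    (fun (p : ℕ × ℕ) K => mem (z p.1) K ∧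
      ∀ x, mem x K → failRow (c p.1) (p.2 : M) x → mem x (e p.1))
    (I := Set.univ) Set.countable_univ (fun p _ => by exact ArI.out) fun J _ hJ => by
      obtain ⟨N, hN⟩ := (hJ.image Prod.fst).bddAbove
      refine ⟨e (N + 1), fun x hx => ?_, fun p hp => ⟨?_, fun x hx hf => ?_⟩⟩
      · obtain ⟨n, -, rfl⟩ := (he _ _).1 hx
        exact hi n
      · exact (he _ _).2 ⟨p.1, Nat.lt_succ_of_le (hN ⟨p, hp, rfl⟩), rfl⟩
      · obtain ⟨n, -, rfl⟩ := (he _ _).1 hx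
        refine (he _ _).2 ⟨n, ?_, rfl⟩
        by_contra hn
        exact (hc p.1).wm.1 (hz p.1 n (not_lt.1 hn)) p.2 hf
  refine ⟨K, fun n => (h2 (n, 0) trivial).1, h1, fun k x hx => ?_⟩
  by_cases hw : Wm (R k) (D k) x
  · exact Or.inl hw
  · rw [(hc k).wm] at hw
    push Not at hw
    obtain ⟨m, hm⟩ := hw
    obtain ⟨n, hn, rfl⟩ := (he _ _).1 ((h2 (k, m) trivial).2 x hx hm)
    exact Or.inr ⟨n, hn, rfl⟩

theorem pseudo (hS : Sat (aleph 1) M) (Y : ℕ → M) (hY : ∀ n, InfStd (Y n))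
    (hd : ∀ n, sub (Y (n + 1)) (Y n)) :
    ∃ Z, InfStd Z ∧ ∀ n x, mem x Z → x ∉ omega M → mem x (Y n) := by
  have mono : ∀ k j, k ≤ j → sub (Y j) (Y k) := fun k j h => by
    induction j, h using Nat.le_induction with
    | base => exact sub_refl _
    | succ j _ ih => exact (hd j).trans ih
  choose a ha ha' using fun k => hY k k
  choose e he using fun k : ℕ =>
    exists_code_of_finite ((Set.finite_Iio k).image fun j => (a j : M))
  obtain ⟨Z, hZ⟩ := hS.seq (fun k Z => mem (a k : M) Z ∧ ∀ x, mem x Z → mem x (Y k) ∨ mem x (e k))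
    (fun k => by exact ArI.out) fun N => by
      refine ⟨e N, fun k hk => ⟨(he _ _).2 ⟨k, hk, rfl⟩, fun x hx => ?_⟩⟩
      obtain ⟨j, -, rfl⟩ := (he _ _).1 hx
      rcases lt_or_ge j k with h | h
      · exact Or.inr ((he _ _).2 ⟨j, h, rfl⟩)
      · exact Or.inl (mono k j h _ (ha' j))
  refine ⟨Z, fun N => ⟨a N, ha N, (hZ N).1⟩, fun n x hx hs => ((hZ n).2 x hx).resolve_right ?_⟩
  intro h
  obtain ⟨j, -, rfl⟩ := (he _ _).1 h
  exact hs (nat_std _)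

theorem exists_infStd (hS : Sat (aleph 1) M) : ∃ Y : M, InfStd Y := by
  obtain ⟨a, ha⟩ := hS.nonstd
  obtain ⟨k, hk⟩ := compr (P := fun x : M => x = x) (by exact ArI.out) a
  exact ⟨k, fun N => ⟨N, le_rfl, (hk _).2 ⟨nat_lt_of_nonstd ha N, rfl⟩⟩⟩

theorem exists_const (K a : M) : ∃ G, ∀ z u, ap G z u ↔ mem z K ∧ u = a := by
  obtain ⟨G, hG⟩ := compr_bd (P := fun x : M => ∃ z, mem z K ∧ x = pr z a) (by exact ArI.out)
    (pr K a + 1) (by
      rintro x ⟨z, hz, rfl⟩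
      exact lt_succ_iff.2 (pr_mono (lt_of_mem hz).le le_rfl))
  refine ⟨G, fun z u => (hG _).trans ⟨?_, ?_⟩⟩
  · rintro ⟨z', hz, e⟩
    obtain ⟨rfl, rfl⟩ := pr_inj.1 e
    exact ⟨hz, rfl⟩
  · rintro ⟨hz, rfl⟩
    exact ⟨z, hz, rfl⟩

theorem exists_image (G K : M) : ∃ k, ∀ u, mem u k ↔ ∃ z, mem z K ∧ ap G z u :=
  compr_bd (P := fun u : M => ∃ z, mem z K ∧ mem (pr z u) G) (by exact ArI.out) G
    fun _ ⟨_, _, h⟩ => (le_pr_right _ _).trans_lt (lt_of_mem h)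

theorem exists_watimage (d Y m : M) :
    ∃ K, ∀ u, mem u K ↔ ∃ n, mem n Y ∧ m ≤ n ∧ wat d n u :=
  compr_bd (P := fun u : M => ∃ n, mem n Y ∧ m ≤ n ∧ wat d n u) (by exact ArI.out) d
    fun _ ⟨_, _, _, h⟩ => (le_pr_right _ _).trans_lt (lt_of_mem h.1)

theorem exists_restrict (G : M) {P : M → Prop} (hP : Ar fun v => P (v 0)) :
    ∃ H, ∀ z u, ap H z u ↔ ap G z u ∧ P z := by
  have : Ar1 P := ⟨hP⟩
  obtain ⟨H, hH⟩ := compr_bd (P := fun x : M => mem x G ∧ ∃ z u, x = pr z u ∧ P z)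
    (by exact ArI.out) G fun _ h => lt_of_mem h.1
  refine ⟨H, fun z u => (hH _).trans ⟨?_, fun h => ⟨h.1, z, u, rfl, h.2⟩⟩⟩
  rintro ⟨h, z', u', e, hz⟩
  obtain ⟨rfl, rfl⟩ := pr_inj.1 e
  exact ⟨h, hz⟩

/-- `m` is the least element of `Y` that is at least `n` -/
def nxt (Y n m : M) : Prop := mem m Y ∧ n ≤ m ∧ ∀ m', m' < m → n ≤ m' → ¬ mem m' Y

instance : D3 (nxt (M := M)) := ⟨by unfold nxt; exact D0I.out⟩

theorem nxt_unique {Y n m m' : M} (h : nxt Y n m) (h' : nxt Y n m') : m = m' :=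
  le_antisymm (not_lt.1 fun hl => h.2.2 _ hl h'.2.1 h'.1)
    (not_lt.1 fun hl => h'.2.2 _ hl h.2.1 h.1)

theorem nxt_std {Y : M} (hY : InfStd Y) (n : ℕ) : ∃ m : ℕ, nxt Y (n : M) (m : M) := by
  obtain ⟨a, ha, ha'⟩ := hY n
  obtain ⟨m, hm, hmin⟩ := exists_least (P := fun x : M => mem x Y ∧ (n : M) ≤ x)
    (by exact ArI.out) (x := (a : M)) ⟨ha', by exact_mod_cast ha⟩
  obtain ⟨m, rfl⟩ := std_of_le (hmin _ ⟨ha', by exact_mod_cast ha⟩) (nat_std a)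
  exact ⟨m, hm.1, hm.2, fun m' hl h1 h2 => absurd (hmin m' ⟨h2, h1⟩) (not_le.2 hl)⟩

/-- passing to an enumeration of `Y` -/
theorem reindex (hS : Sat (aleph 1) M) {F : Set M} {C : Rel M} {q : Pre M} {d Y : M}
    (hY : InfStd Y) (hd : ∀ n : ℕ, ∃ u, wat d (n : M) u) (h : BMY F C q d Y) :
    ∃ d' μ, BMF F C q d' μ := by
  obtain ⟨μ, hμ, H⟩ := overspill hS.nonstd (P := fun n => ∃ m u, nxt Y n m ∧ wat d m u)
    (by exact ArI.out) fun n => by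
      obtain ⟨m, hm⟩ := nxt_std hY n
      obtain ⟨u, hu⟩ := hd m
      exact ⟨m, u, hm, hu⟩
  obtain ⟨d', hd'⟩ := compr_bd
    (P := fun x : M => ∃ n u m, x = pr n u ∧ n ≤ μ ∧ nxt Y n m ∧ wat d m u) (by exact ArI.out)
    (pr μ d + 1) (by
      rintro x ⟨n, u, m, rfl, h1, -, h2⟩
      exact lt_succ_iff.2 (pr_mono h1 ((le_pr_right _ _).trans (lt_of_mem h2.1).le)))
  have key : ∀ n m u, n ≤ μ → nxt Y n m → wat d m u → wat d' n u := by
    intro n m u h1 h2 h3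
    refine ⟨(hd' _).2 ⟨n, u, m, rfl, h1, h2, h3⟩, fun u' hl hm => ?_⟩
    obtain ⟨n', u'', m', e, -, h4, h5⟩ := (hd' _).1 hm
    obtain ⟨rfl, rfl⟩ := pr_inj.1 e
    obtain rfl := nxt_unique h2 h4
    exact hl.ne (wat_unique h5 h3)
  refine ⟨d', μ, hμ, fun n hn => ?_, fun r hr Y₂ hb hY₂ e => ?_⟩
  · obtain ⟨m, u, h1, h2⟩ := H n hn
    exact ⟨u, key n m u hn h1 h2⟩
  · obtain ⟨Y₃, hY₃⟩ := compr_bd (P := fun m : M => ∃ n, mem n Y₂ ∧ nxt Y n m) (by exact ArI.out)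
      Y fun _ ⟨_, _, h⟩ => lt_of_mem h.1
    obtain ⟨s, hs, m, u, h1, h2, h3, h4⟩ := h r hr Y₃
      (fun m hm => by
        obtain ⟨n, -, hn⟩ := (hY₃ m).1 hm
        exact hn.1)
      (fun N => by
        obtain ⟨n, hn, hn'⟩ := hY₂ N
        obtain ⟨m, hm⟩ := nxt_std hY n
        exact ⟨m, hn.trans (by exact_mod_cast hm.2.1), (hY₃ _).2 ⟨n, hn', hm⟩⟩) e
    obtain ⟨n, hn, hnm⟩ := (hY₃ m).1 h1
    refine ⟨s, hs, n, u, hn, ?_, key n m u (hb n hn) hnm h3, h4⟩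
    rintro ⟨n, rfl⟩
    obtain ⟨m', hm'⟩ := nxt_std hY n
    exact h2 (nxt_unique hnm hm' ▸ nat_std m')

end Pool.Agent.MP_6072c5_lc.H71
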