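import Pool.Agent.MP_6072c5_lc.H71.Ops

/-! The totality step; soundness of the reading procedure; the mask step. -/

set_option linter.unusedSectionVars false
set_option synthInstance.maxSize 100000

namespace Pool.Agent.MP_6072c5_lc.H71

open Pool.Agent.MP_62ad46_lc.H18 Pool.Agent.MP_6072c5_lc.H80 Cardinal

variable {M : Type} [CommSemiring M] [LinearOrder M] [IsPA M]
variable {F : Set M} {p b : Pre M} {C Ψ : Rel M} {j t : M} {i : Bool}

/-- legal functions that are constant on the free part -/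
def StepsGood (j : M) (R D : Set M) (a g : M) : Prop :=
  Legal j R D g ∧ ∀ z u, ap g z u → Wm R D z → u = a

theorem steps_union {R D J : Set M} {a : M} (hJ : J.Finite) (h : ∀ g ∈ J, StepsGood j R D a g) :
    ∃ g, StepsGood j R D a g ∧ ∀ g' ∈ J, ∀ z u, ap g' z u → ap g z u := by
  induction J, hJ using Set.Finite.induction_on with
  | empty =>
    obtain ⟨e, he⟩ := exists_empty (M := M)
    exact ⟨e, ⟨LegalW.of_all fun z u h => absurd h (he _), fun z u h => absurd h (he _)⟩,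
      fun _ h => h.elim⟩
  | @insert x J _ _ ih =>
    obtain ⟨g, hg, hg'⟩ := ih fun g hg => h g (Or.inr hg)
    obtain ⟨k, hk⟩ := exists_union x g
    have hx := h x (Or.inl rfl)
    refine ⟨k, ⟨LegalW.union hx.1 hg.1 fun z u h => (hk _).1 h,
      fun z u h => ((hk _).1 h).elim (hx.2 z u) (hg.2 z u)⟩, ?_⟩
    rintro g' (rfl | h') z u hz
    · exact (hk _).2 (Or.inl hz)
    · exact (hk _).2 (Or.inr (hg' g' h' z u hz))

theorem steps_piece (d μ q r K N : M) : ∃ g, ∀ z u, ap g z u ↔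
    mem z K ∧ fail r z ∧ (∀ m, m < N → ¬ failL r m z) ∧ lv (pr d (pr μ q)) r z u := by
  obtain ⟨g, hg⟩ := compr (P := fun x : M => ∃ z u, x = pr z u ∧ mem z K ∧ fail r z ∧
    (∀ m, m < N → ¬ failL r m z) ∧ lv (pr d (pr μ q)) r z u) (by exact ArI.out) (pr K d + 1)
  refine ⟨g, fun z u => (hg _).trans ⟨?_, fun h => ⟨lt_succ_iff.2 ?_, z, u, rfl, h⟩⟩⟩
  · rintro ⟨-, z', u', e, h⟩
    obtain ⟨rfl, rfl⟩ := pr_inj.1 e
    exact h
  · obtain ⟨n, -, hn⟩ := lv_iff.1 h.2.2.2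
    exact pr_mono (lt_of_mem h.1).le ((le_pr_right _ _).trans (lt_of_mem hn.1).le)

theorem steps_mem_facts {l : Lit M} {g : M} (hl : IsFact l j g) (p : Pre M) :
    g ∈ Facts (addT p {l}).T j := ⟨l, Or.inr rfl, hl⟩

theorem tot_dense (hS : Sat (aleph 1) M) (hp : IsCond F p) {d μ q : M} (hj : j = pr d (pr μ q))
    (hj0 : j ≠ 0) (hf : Free p j) (hμ : μ ∉ omega M) (hd : ∀ n, n ≤ μ → ∃ u, wat d n u)
    (K a₀ a₁ : M) : ∃ r, Ext F r p ∧ Tot r j μ K a₀ a₁ := by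
  by_cases h3 : ∃ r ∈ p.R j, ∀ N : ℕ, ∃ n : ℕ, N ≤ n ∧ ∃ z, mem z K ∧ fail r z ∧ lev μ r z (n : M)
  · exact ⟨p, Ext.refl hp, Or.inr (Or.inr h3)⟩
  by_cases h2 : ∃ z₀ z₁, z₀ ≠ z₁ ∧ (mem z₀ K ∧ Wm (p.R j) (Facts p.T j) z₀) ∧
      mem z₁ K ∧ Wm (p.R j) (Facts p.T j) z₁
  · obtain ⟨z₀, z₁, hne, ⟨m0, w0⟩, m1, w1⟩ := h2
    obtain ⟨g, hg⟩ := exists_code_of_finite (Set.toFinite ({pr z₀ a₀, pr z₁ a₁} : Set M))
    have hg' : ∀ z u, ap g z u ↔ (z = z₀ ∧ u = a₀) ∨ (z = z₁ ∧ u = a₁) := fun z u => by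
      simp only [ap, hg, Set.mem_insert_iff, Set.mem_singleton_iff, pr_inj]
    obtain ⟨l, hl, he⟩ := fire hS hp hj0 hf (g := g) (fun z u u' h h' => by
      rcases (hg' _ _).1 h with ⟨e1, rfl⟩ | ⟨e1, rfl⟩ <;>
        rcases (hg' _ _).1 h' with ⟨e2, rfl⟩ | ⟨e2, rfl⟩
      exacts [rfl, absurd (e1.symm.trans e2) hne, absurd (e2.symm.trans e1) hne, rfl])
      (LegalW.of_all fun z u h => by
        rcases (hg' _ _).1 h with ⟨rfl, -⟩ | ⟨rfl, -⟩
        exacts [w0, w1])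
    exact ⟨_, he, Or.inr (Or.inl ⟨z₀, z₁, m0, m1, g, steps_mem_facts hl p,
      (hg' _ _).2 (Or.inl ⟨rfl, rfl⟩), (hg' _ _).2 (Or.inr ⟨rfl, rfl⟩)⟩)⟩
  push Not at h3
  choose! N hN using h3
  have hlay : ∀ r ∈ p.R j, ∀ z, mem z K → fail r z → (∀ m, m < (N r : M) → ¬ failL r m z) →
      lay r z := fun r hr z hz hfl hm => by
    obtain ⟨n, hn⟩ := lev_exists μ r z
    refine lay_of_lev hfl hn ?_
    rintro ⟨n', rfl⟩
    rcases le_or_gt (N r) n' with h | h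
    · exact hN r hr n' h z hz hfl hn
    · exact hn.2.1.elim (fun e => hμ (e ▸ nat_std n')) (hm _ (by exact_mod_cast h))
  choose pc hpc using fun r => steps_piece d μ q r K (N r)
  have hss : {z | mem z K ∧ Wm (p.R j) (Facts p.T j) z}.Subsingleton := fun z hz z' hz' =>
    by_contra fun hne => h2 ⟨z, z', hne, hz, hz'⟩
  obtain ⟨g₀, hg₀⟩ := exists_code_of_finite (hss.finite.image fun z => pr z a₀)
  have hI : ∀ g ∈ insert g₀ (Facts p.T j ∪ pc '' p.R j),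
      StepsGood j (p.R j) (Facts p.T j) a₀ g := by
    rintro g (rfl | hg | ⟨r, hr, rfl⟩)
    · refine ⟨LegalW.of_all fun z u h => ?_, fun z u h _ => ?_⟩
      · obtain ⟨z', h1, e⟩ := (hg₀ _).1 h
        exact (pr_inj.1 e).1 ▸ h1.2
      · obtain ⟨z', -, e⟩ := (hg₀ _).1 h
        exact (pr_inj.1 e).2.symm
    · exact ⟨LegalW.self hg, fun z u h hw => absurd h (hw.2 g hg u)⟩
    · refine ⟨⟨{r}, ∅, Set.finite_singleton _, Set.finite_empty, Set.singleton_subset_iff.2 hr,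
        Set.empty_subset _, fun z u h => ?_⟩,
        fun z u h hw => absurd ((hpc r z u).1 h).2.1 (hw.1 r hr)⟩
      obtain ⟨a1, a2, a3, a4⟩ := (hpc r z u).1 h
      exact Or.inr (Or.inr ⟨r, rfl, hlay r hr z a1 a2 a3, hj ▸ a4⟩)
  obtain ⟨J, hJ, hfin, hcov⟩ := subcover hS (fun g x : M => ∃ u, ap g x u)
    (I := insert g₀ (Facts p.T j ∪ pc '' p.R j))
    (((Facts.countable hp.cT j).union ((hp.cR j).image _)).insert _)
    (fun g _ => by exact ArI.out) (K := K) fun x hx => by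
      by_cases hw : Wm (p.R j) (Facts p.T j) x
      · exact ⟨g₀, Or.inl rfl, a₀, (hg₀ _).2 ⟨x, ⟨hx, hw⟩, rfl⟩⟩
      have : (∃ r ∈ p.R j, lay r x) ∨ ∃ G ∈ Facts p.T j, ∃ u, ap G x u := by
        by_contra hn
        exact hw ⟨fun r hr h => hn (hp.tri j r hr x h), fun G hG u h => hn (Or.inr ⟨G, hG, u, h⟩)⟩
      rcases this with ⟨r, hr, hl⟩ | ⟨G, hG, h⟩
      · obtain ⟨n, hn⟩ := lev_exists μ r x
        obtain ⟨u, hu⟩ := hd n hn.1
        refine ⟨pc r, Or.inr (Or.inr ⟨r, hr, rfl⟩), u,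
          (hpc r x u).2 ⟨hx, hl.1, fun m hm => ?_, lv_iff.2 ⟨n, hn, hu⟩⟩⟩
        obtain ⟨m', -, rfl⟩ := exists_nat_of_lt hm
        exact hl.2 m'
      · exact ⟨G, Or.inr (Or.inl hG), h⟩
  obtain ⟨g, hg, hg'⟩ := steps_union hfin fun g hg => hI g (hJ hg)
  obtain ⟨l, hl, he⟩ := fire hS hp hj0 hf (g := g) (fun z u u' h h' => by
    by_cases hw : Wm (p.R j) (Facts p.T j) z
    · exact (hg.2 z u h hw).trans (hg.2 z u' h' hw).symm
    · exact hp.old_old ((LegalW.old hg.1 h).resolve_left hw)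
        ((LegalW.old hg.1 h').resolve_left hw)) hg.1
  refine ⟨_, he, Or.inl ⟨g, steps_mem_facts hl p, fun z hz => ?_⟩⟩
  obtain ⟨g', h1, u, hu⟩ := hcov z hz
  exact ⟨u, hg' g' h1 z u hu⟩

theorem rd_sound (hS : Sat (aleph 1) M) (hb : IsCond F b) (hj : j ∈ b.Z) (hj0 : j ≠ 0) {a₁ : M}
    (ha : En1 b.T C true a₁) (hW : ∀ r, Ext F r b → ¬ Wrong r.T C j i Ψ)
    (hp : Ext F p (modeOn b j t)) {l l' : Lit M} (hl' : l' ∈ p.T) (hk : l'.1 = l.1) {k₁ k₀ : M}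
    (he : En p.T C k₁ k₀) (hr : Rd (modeAt b j t) Ψ i (lit l) k₁ k₀) : l = l' := by
  by_contra hne
  have hl : l ∉ p.T := hp.cond.not_mem hl' hk (Ne.symm hne)
  obtain ⟨k, K, a, c, g, z, hΨ, hz, hi, hw, hs, hrows, hpart, hag, hL⟩ := hr
  have hm : modeAt b j t ∈ p.Md := hp.nm.Md (Or.inl rfl)
  have hu := unmode_ext hb hj hp
  have hf : Free (unmode p j) j := hu.cond.free_of_mem (Or.inl rfl)
  have key : ∀ x, Wm (b.R j) (Facts b.T j) x → say t x (lit l) →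
      Wm ((unmode p j).R j) (Facts (unmode p j).T j) x := fun x hx hx' =>
    ⟨fun r hr => hx.1 r ((hp.cond.mR _ hm).le hr), fun G ⟨l'', h1, h2⟩ u h =>
      hl (hp.cond.closed.mem h1 ⟨_, hm, G, x, u, h2, h, hx, hx'⟩)⟩
  obtain ⟨l₁, f1, e1⟩ := fire hS hu.cond hj0 hf hag
    (LegalW.mono hL (fun x _ _ h => key x h.1 h.2) (hu.nm.R j) (Facts.mono hu.T j))
  obtain ⟨g', hg'⟩ := exists_single (pr z a₁)
  obtain ⟨l₂, f2, e2⟩ := fire hS e1.cond hj0 (p := addT (unmode p j) {l₁}) hf (g := g')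
    (fun x u u' h h' => (pr_inj.1 ((hg' _).1 h)).2.trans (pr_inj.1 ((hg' _).1 h')).2.symm)
    (LegalW.of_all fun x u h => by
      obtain rfl := (pr_inj.1 ((hg' _).1 h)).1
      refine ⟨(key x hw hs).1, fun G hG v hv => ?_⟩
      rcases facts_union.1 hG with hG | hG
      · exact (key x hw hs).2 G hG v hv
      · obtain rfl := ((facts_single f1).1 hG).2
        exact prt_not.1 hi (hpart x v hv))
  have e3 := (e2.trans e1).trans hu
  have fg := Facts.mono e2.T j (steps_mem_facts f1 (unmode p j))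
  exact hW _ e3 ⟨K, ⟨k, a, c, k₁, k₀, hΨ, he.mono (e2.trans e1).T, g, fg, g, fg, hrows⟩, z, hz, hi,
    g', steps_mem_facts f2 _, a₁, (hg' _).2 rfl, ha.mono e3.T⟩

theorem mask_dense (hS : Sat (aleph 1) M) (hp : IsCond F p) (hI : Ins F C p) (i : Bool)
    (Ψ : Rel M) : ∃ q, Ext F q p ∧ MWin F C i Ψ q := by
  choose s hs using fun y : M => exists_single (pr y 0)
  have hc : {y : M | pr 0 y ∈ keys p.T}.Countable :=
    (keys_countable hp.cT).preimage_of_injOn fun x _ y _ e => (pr_inj.1 e).2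
  obtain ⟨y, hw, hy, -⟩ := rich hS Set.countable_empty (hc.image s) (fun _ _ _ h => h.elim)
    one_ne_zero (fun _ _ h => h) (!i) 0
  have hv : pr 0 y ∉ keys p.T := fun h => hw.2 _ ⟨y, h, rfl⟩ 0 ((hs y _).2 rfl)
  obtain ⟨c, hq⟩ := (dec_ext hp hv false).1
  by_cases h : ∃ r, Ext F r (addT p {(pr 0 y, false, c)}) ∧ MEv r.T C i Ψ y
  · obtain ⟨r, hr, k, K, a, b, k₁, k₀, hΨ, hyK, he, h1, h2, h3⟩ := h
    obtain ⟨u, hu, he', hy', hk⟩ := hI r (hr.trans hq) y false c (hr.T (Or.inr rfl)) hv k₁ k₀ he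
    have hne : ∀ y', prt i y' → y' ≠ y := fun y' h e => prt_not.1 hy (e ▸ h)
    refine ⟨u, hu, y, hy, Or.inl ⟨⟨k, K, a, b, k₁, k₀, hΨ, hyK, he', fun x hx => ?_, h2,
      fun y' h h' => ?_⟩, _, hy'⟩⟩
    · exact (h1 x hx).imp_right fun ⟨y', c', e, h, h'⟩ => ⟨y', c', e, h, hk y' _ (hne y' h) h'⟩
    · exact (h3 y' h h').imp fun c' h'' => hk y' _ (hne y' h') h''
  · exact ⟨_, hq, y, hy, Or.inr ⟨⟨c, Or.inr rfl⟩, fun r hr h' => h ⟨r, hr, h'⟩⟩⟩

end Pool.Agent.MP_6072c5_lc.H71
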