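import Pool.Agent.MP_62ad46_lc.H18.Red

/-! The ultrapower of `ℕ` is a countably saturated model of arithmetic of size at most the
continuum. -/

namespace Pool.Agent.MP_6072c5_lc.H71

open Pool.Agent.MP_62ad46_lc.H18 Cardinal Filter

/-- the ultrapower of the natural numbers -/
abbrev UP : Type := Germ (hyperfilter ℕ : Filter ℕ) ℕ

theorem cons_coe (g : ℕ → ℕ) (f : ℕ → ℕ → ℕ) :
    cons (g : UP) (fun i => (f i : UP)) =
      fun i => (((fun n => cons (g n) (fun k => f k n) i : ℕ → ℕ)) : UP) := by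
  funext i
  cases i <;> rfl

theorem los_tm {s : (ℕ → UP) → UP} (hs : Tm s) : ∃ s' : ℕ → (ℕ → ℕ) → ℕ, ∀ f : ℕ → ℕ → ℕ,
    s (fun i => (f i : UP)) = ((fun n => s' n fun i => f i n : ℕ → ℕ) : UP) := by
  induction hs with
  | var i => exact ⟨fun _ w => w i, fun f => rfl⟩
  | const c =>
    induction c using Germ.inductionOn with
    | h g => exact ⟨fun n _ => g n, fun f => rfl⟩
  | add _ _ ih1 ih2 =>
    obtain ⟨a, ha⟩ := ih1
    obtain ⟨b, hb⟩ := ih2
    exact ⟨fun n w => a n w + b n w, fun f => by simp only [ha, hb]; rfl⟩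
  | mul _ _ ih1 ih2 =>
    obtain ⟨a, ha⟩ := ih1
    obtain ⟨b, hb⟩ := ih2
    exact ⟨fun n w => a n w * b n w, fun f => by simp only [ha, hb]; rfl⟩

theorem los {P : (ℕ → UP) → Prop} (hP : Ar P) : ∃ P' : ℕ → (ℕ → ℕ) → Prop, ∀ f : ℕ → ℕ → ℕ,
    P (fun i => (f i : UP)) ↔ ∀ᶠ n in (hyperfilter ℕ : Filter ℕ), P' n fun i => f i n := by
  induction hP with
  | eq h1 h2 =>
    obtain ⟨a, ha⟩ := los_tm h1
    obtain ⟨b, hb⟩ := los_tm h2
    exact ⟨fun n w => a n w = b n w, fun f => by simp only [ha, hb]; exact Germ.coe_eq⟩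
  | lt h1 h2 =>
    obtain ⟨a, ha⟩ := los_tm h1
    obtain ⟨b, hb⟩ := los_tm h2
    exact ⟨fun n w => a n w < b n w, fun f => by simp only [ha, hb]; exact Germ.coe_lt⟩
  | not _ ih =>
    obtain ⟨a, ha⟩ := ih
    exact ⟨fun n w => ¬ a n w, fun f => by simp only [ha]; exact Ultrafilter.eventually_not.symm⟩
  | and _ _ ih1 ih2 =>
    obtain ⟨a, ha⟩ := ih1
    obtain ⟨b, hb⟩ := ih2
    exact ⟨fun n w => a n w ∧ b n w, fun f => by simp only [ha, hb]; exact eventually_and.symm⟩
  | ex _ ih =>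
    obtain ⟨a, ha⟩ := ih
    refine ⟨fun n w => ∃ x, a n (cons x w), fun f => ⟨?_, fun h => ?_⟩⟩
    · rintro ⟨x, hx⟩
      induction x using Germ.inductionOn with
      | h g =>
        rw [cons_coe, ha] at hx
        exact hx.mono fun n hn => ⟨g n, hn⟩
    · classical
      let g : ℕ → ℕ := fun n => if h : ∃ x, a n (cons x fun i => f i n) then h.choose else 0
      refine ⟨(g : UP), ?_⟩
      rw [cons_coe, ha]
      refine h.mono fun n hn => ?_
      have : g n = hn.choose := dif_pos hn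
      show a n (cons (g n) fun i => f i n)
      rw [this]
      exact hn.choose_spec

theorem los1 {P : UP → Prop} (hP : Ar fun v => P (v 0)) : ∃ S : ℕ → ℕ → Prop, ∀ g : ℕ → ℕ,
    P (g : UP) ↔ ∀ᶠ n in (hyperfilter ℕ : Filter ℕ), S n (g n) := by
  obtain ⟨a, ha⟩ := los hP
  exact ⟨fun n x => a n fun _ => x, fun g => ha fun _ => g⟩

instance : IsPA UP where
  nonneg x := by
    induction x using Germ.inductionOn with
    | h g => exact Germ.coe_le.2 (Eventually.of_forall fun n => Nat.zero_le _)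
  discrete x hx := by
    induction x using Germ.inductionOn with
    | h g => exact Germ.coe_le.2 ((Germ.coe_lt.1 hx).mono fun n hn => hn)
  sub x y h := by
    induction x using Germ.inductionOn with
    | h f =>
      induction y using Germ.inductionOn with
      | h g =>
        exact ⟨((fun n => g n - f n : ℕ → ℕ) : UP), Germ.coe_eq.2
          ((Germ.coe_le.1 h).mono fun n hn => Nat.add_sub_cancel' hn)⟩
  ind P hP h0 hs x := by
    classical
    obtain ⟨S, hS⟩ := los1 hP
    induction x using Germ.inductionOn with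
    | h f =>
      by_contra hn
      rw [hS, ← Ultrafilter.eventually_not] at hn
      let g : ℕ → ℕ := fun n => if h : ∃ x, ¬ S n x then Nat.find h else 0
      have h1 : ∀ᶠ n in (hyperfilter ℕ : Filter ℕ), ¬ S n (g n) ∧ ∀ m < g n, S n m :=
        hn.mono fun n h => by
          have e : g n = Nat.find ⟨f n, h⟩ := dif_pos ⟨f n, h⟩
          rw [e]
          exact ⟨Nat.find_spec (p := fun x => ¬ S n x) _,
            fun m hm => not_not.1 (Nat.find_min (p := fun x => ¬ S n x) _ hm)⟩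
      have h2 : ∀ᶠ n in (hyperfilter ℕ : Filter ℕ), S n 0 := (hS fun _ => 0).1 h0
      have h3 : ∀ᶠ n in (hyperfilter ℕ : Filter ℕ), 0 < g n :=
        (h1.and h2).mono fun n h => Nat.pos_of_ne_zero fun e => h.1.1 (e ▸ h.2)
      have h4 := hs _ ((hS fun n => g n - 1).2 ((h1.and h3).mono fun n h => h.1.2 _ (by omega)))
      have h5 := (hS fun n => g n - 1 + 1).1 h4
      obtain ⟨n, h⟩ := ((h1.and h3).and h5).exists
      exact h.1.1.1 (by have := h.2; rwa [Nat.sub_add_cancel h.1.2] at this)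

theorem up_sat : Sat (aleph 1) UP := by
  classical
  intro ι S hι hA hF
  have : Countable ι := by
    rw [← mk_le_aleph0_iff, ← Order.lt_succ_iff, succ_aleph0]
    exact hι
  choose T hT using fun i => los1 (hA i)
  obtain ⟨e, he⟩ := exists_injective_nat ι
  have key : ∀ N : ℕ, ∀ᶠ n in (hyperfilter ℕ : Filter ℕ), ∃ x, ∀ i, e i ≤ N → T i n x := by
    intro N
    have hf : {i | e i ≤ N}.Finite := (Set.finite_Iic N).preimage he.injOn
    obtain ⟨x, hx⟩ := hF hf.toFinset
    induction x using Germ.inductionOn with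
    | h g =>
      have : ∀ᶠ n in (hyperfilter ℕ : Filter ℕ), ∀ i ∈ {i | e i ≤ N}, T i n (g n) :=
        (eventually_all_finite hf).2 fun i hi => (hT i g).1 (hx i (hf.mem_toFinset.2 hi))
      exact this.mono fun n hn => ⟨g n, hn⟩
  let k : ℕ → ℕ := fun n => Nat.findGreatest (fun N => ∃ x, ∀ i, e i ≤ N → T i n x) n
  let g : ℕ → ℕ := fun n => if h : ∃ x, ∀ i, e i ≤ k n → T i n x then h.choose else 0
  refine ⟨(g : UP), fun i => (hT i g).2 ?_⟩
  have h1 : ∀ᶠ n in (hyperfilter ℕ : Filter ℕ), e i ≤ n :=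
    (Nat.hyperfilter_le_atTop (eventually_ge_atTop (e i)))
  refine ((key (e i)).and h1).mono fun n h => ?_
  have h2 : ∃ x, ∀ i, e i ≤ k n → T i n x := Nat.findGreatest_spec
    (P := fun N => ∃ x, ∀ i, e i ≤ N → T i n x) h.2 h.1
  have h3 : g n = h2.choose := dif_pos h2
  rw [h3]
  exact h2.choose_spec i (Nat.le_findGreatest h.2 h.1)

theorem up_card : #UP ≤ continuum := by
  refine (mk_quotient_le).trans ?_
  simp

end Pool.Agent.MP_6072c5_lc.H71
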