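import Pool.Agent.MP_6072c5_lc.H71.Switch

/-! Coherent worlds: the limit of a sequence of switches. -/

set_option linter.unusedSectionVars false
set_option synthInstance.maxSize 100000

namespace Pool.Agent.MP_6072c5_lc.H71

open Pool.Agent.MP_62ad46_lc.H18 Pool.Agent.MP_6072c5_lc.H80 Cardinal

variable {M : Type} [CommSemiring M] [LinearOrder M] [IsPA M]
variable {F : Set M} {p : Pre M} {C : Rel M}

namespace WorldsA

/-- the hypotheses on a sequence of switches -/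
structure Chain (F : Set M) (r u : ℕ → Pre M) (Γ : ℕ → Set (Lit M)) : Prop where
  hc : ∀ n, IsCond F (r n)
  ha : ∀ n, Alt F (r n) (Γ n)
  hs : ∀ n, Sw F (r n) (Γ n) (u n)
  he : ∀ n, Ext F (r (n + 1)) (u n)
  hd : ∀ n m, n ≠ m → Disjoint (keys (Γ n)) (keys (Γ m \ (r m).T))
  hneg : ∀ n m, n ≤ m → ∀ l ∈ (r n).T, l.1 ∈ keys (Γ m \ (r m).T) → ∀ j G, ¬ IsFact l j G

variable {r u : ℕ → Pre M} {Γ : ℕ → Set (Lit M)}

theorem Chain.step (h : Chain F r u Γ) (n : ℕ) : NM (r n) (r (n + 1)) :=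
  (h.hs n).nm.trans (h.he n).nm (h.hs n).cond (h.he n).cond

theorem Chain.le (h : Chain F r u Γ) {n m : ℕ} (hm : n ≤ m) : NM (r n) (r m) :=
  nm_le h.hc h.step hm

theorem disjoint_single {l : Lit M} {S : Set M} (h : l.1 ∉ S) : Disjoint (keys {l}) S := by
  refine Set.disjoint_left.2 ?_
  rintro _ ⟨l', rfl, rfl⟩
  exact h

/-- a closed part whose keys are never switched stays -/
theorem Chain.stay (h : Chain F r u Γ) {n : ℕ} {Δ : Set (Lit M)} (hΔ : Δ ⊆ (r n).T)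
    (hcl : Closed (r n).Md Δ) (hk : ∀ k, n ≤ k → Disjoint (keys Δ) (keys (Γ k \ (r k).T))) :
    Δ ⊆ (lim r).T := by
  have key : ∀ k, n ≤ k → Δ ⊆ (r k).T := by
    intro k hk'
    induction hk' with
    | refl => exact hΔ
    | step h1 ih =>
      exact ((h.hs _).keep Δ ih (hcl.nm (h.hc _) (h.le h1) hΔ) (hk _ h1)).trans (h.he _).T
  exact fun l hl => ⟨n, fun k hk' => key k hk' hl⟩

theorem Chain.stable (h : Chain F r u Γ) : Stable r := by
  rintro n l hl ⟨j, G, hf⟩ hy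
  exact (h.he n).T ((h.hs n).keep {l} (Set.singleton_subset_iff.2 hl) (closed_single hy)
    (disjoint_single fun hk => h.hneg n n le_rfl l hl hk j G hf) rfl)

theorem Chain.cond (h : Chain F r u Γ) : IsCond F (lim r) := lim_cond h.stable h.hc h.step

theorem Chain.nm (h : Chain F r u Γ) (n : ℕ) : NM (r n) (lim r) := lim_nm h.stable h.hc h.step n

theorem Chain.sub (h : Chain F r u Γ) (n : ℕ) : Γ n ⊆ (lim r).T := by
  have hcl : Closed (u n).Md (Γ n) := (h.hs n).Md ▸ (h.ha n).cl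
  exact h.stay ((h.hs n).sub.trans (h.he n).T) (hcl.nm (h.he n).cond (h.he n).nm (h.hs n).sub)
    fun k hk => h.hd n k (by omega)

/-- a pair that is not in the limit is removed by some switch -/
theorem Chain.removed (h : Chain F r u Γ) {n : ℕ} {l : Lit M} (hl : l ∈ (r n).T)
    (hn : l ∉ (lim r).T) : ∃ k, n ≤ k ∧ l ∈ (r k).T ∧ l ∉ (u k).T := by
  by_contra hc
  refine hn ⟨n, fun k hk => ?_⟩
  induction hk with
  | refl => exact hl
  | step h1 ih =>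
    by_contra h2
    exact hc ⟨_, h1, ih, fun h3 => h2 ((h.he _).T h3)⟩

theorem Chain.neg_stay (h : Chain F r u Γ) {n : ℕ} {v : M} {b : Bool} (hl : (v, b, b) ∈ (u n).T)
    (hk : ∀ k, n ≤ k → v ∉ keys (Γ k \ (r k).T)) : (v, b, b) ∈ (lim r).T :=
  h.stay (n := n + 1) (Set.singleton_subset_iff.2 ((h.he n).T hl))
    (closed_single fun _ => not_says_neg) (fun k hk' => disjoint_single (hk k (by omega))) rfl

/-- a decided key is decided in the limit -/
theorem Chain.key (h : Chain F r u Γ) {n : ℕ} {l : Lit M} (hl : l ∈ (r n).T) :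
    l.1 ∈ keys (lim r).T := by
  by_cases h1 : ∃ k, l.1 ∈ keys (Γ k \ (r k).T)
  · obtain ⟨k, hk⟩ := h1
    exact keys_mono (Set.sdiff_subset.trans (h.sub k)) hk
  · by_cases h2 : l ∈ (lim r).T
    · exact mem_keys h2
    · obtain ⟨k, -, a1, a2⟩ := h.removed hl h2
      rcases (h.hs k).chg l a1 a2 with h3 | ⟨-, ⟨b, hb⟩, -⟩
      · exact absurd ⟨k, h3⟩ h1
      · exact ⟨_, h.neg_stay hb fun k' _ h3 => h1 ⟨k', h3⟩, rfl⟩

/-- a removed pair does not come back -/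
theorem Chain.once (h : Chain F r u Γ) {n : ℕ} {l : Lit M} (hl : l ∈ (r n).T)
    (hu : l ∉ (u n).T) : l ∉ (lim r).T := by
  intro hm
  rcases (h.hs n).chg l hl hu with ⟨l', ⟨h1, h2⟩, e⟩ | ⟨⟨l', -, -, m, -, G, -, -, hf, -⟩, ⟨b, hb⟩, -⟩
  · exact h2 (h.cond.fn l' (h.sub n h1) l hm e ▸ hl)
  · have := h.neg_stay hb fun k hk h3 => h.hneg n k hk l hl h3 _ _ hf
    exact hu (h.cond.fn _ this l hm rfl ▸ hb)

/-- the messages of `H` that are not in the limit -/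
def lost (r : ℕ → Pre M) (m : Mode M) (H : M) : Set (Lit M) :=
  {l | l ∉ (lim r).T ∧ ∃ z a, ap H z a ∧ Wm m.R m.D z ∧ say m.t z (lit l)}

theorem lost_finite {q : Pre M} (hq : IsCond F q) {m : Mode M} (hm : m ∈ q.Md) {H : M}
    (hH : H ∈ Facts q.T m.j) : (lost r m H).Finite := by
  obtain ⟨l, hl, hf⟩ := hH
  obtain ⟨Δ, h1, -, h2, h3⟩ := hq.fc l hl
  refine h1.subset ?_
  rintro l' ⟨-, z, a, h4⟩
  exact h3.mem h2 ⟨m, hm, H, z, a, hf, h4⟩

/-- a value at a free point survives unless the point says a lost pair -/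
theorem Chain.prot (h : Chain F r u Γ) {m : Mode M} {z a : M} (hw : Wm m.R m.D z) (N : ℕ) :
    ∀ n H, m ∈ (r n).Md → H ∈ Facts (r n).T m.j → ap H z a → (lost r m H).ncard = N →
      (∃ H' ∈ Facts (lim r).T m.j, ap H' z a) ∨
        ∃ k, ∃ l ∈ (r k).T, l ∉ (lim r).T ∧ say m.t z (lit l) := by
  induction N using Nat.strong_induction_on with
  | _ N ih =>
    rintro n H hm ⟨l, hl, hf⟩ ha hN
    by_cases h2 : l ∈ (lim r).T
    · exact Or.inl ⟨H, ⟨l, h2, hf⟩, ha⟩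
    obtain ⟨k, hk, a1, a2⟩ := h.removed hl h2
    have hmk : m ∈ (r k).Md := (h.le hk).Md hm
    rcases (h.hs k).chg l a1 a2 with h3 | ⟨⟨l', b1, b2, b3⟩, -, h4⟩
    · exact absurd hf (h.hneg n k hk l hl h3 _ _)
    obtain ⟨G', hG', c1, c2⟩ := h4 m hmk H hf
    rcases c2 z a ha hw with c3 | ⟨l'', d1, d2, d3⟩
    · have hmu : m ∈ (u k).Md := (h.hs k).Md ▸ hmk
      refine ih _ ?_ (k + 1) G' ((h.he k).nm.Md hmu) (Facts.mono (h.he k).T _ hG') c3 rfl
      rw [← hN]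
      refine Set.ncard_lt_ncard ⟨?_, fun hsub => ?_⟩ (lost_finite (h.hc n) hm ⟨l, hl, hf⟩)
      · rintro x ⟨e1, z', a', e2, e3⟩
        exact ⟨e1, z', a', c1 _ _ e2, e3⟩
      · obtain ⟨m', hm', G, z', a', e1, e2⟩ := b3
        obtain rfl := (h.hc k).mfn m' hm' m hmk (e1.unique hf).1
        obtain rfl := (e1.unique hf).2
        obtain ⟨-, z'', a'', e3⟩ := hsub (a := l') ⟨h.once b1 b2, z', a', e2⟩
        obtain ⟨l₁, f1, f2⟩ := hG'
        exact b2 ((h.hs k).cond.closed.mem f1 ⟨m', hmu, G', z'', a'', f2, e3⟩)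
    · exact Or.inr ⟨k, l'', d1, h.once d1 d2, d3⟩

theorem Chain.amalg (h : Chain F r u Γ) {s : Pre M} (hs : Ext F s (lim r)) {Δ : Set (Lit M)}
    (hΔ : Δ ⊆ s.T) (hf : Δ.Finite) (hcl : Closed s.Md Δ) {n : ℕ}
    (hn : ∀ l ∈ Δ, l ∈ (lim r).T → l ∈ (r n).T) : Ext F (addT (r n) Δ) (r n) := by
  have nm : NM (r n) s := (h.nm n).trans hs.nm h.cond hs.cond
  have back : ∀ k, ∀ l ∈ (r k).T, ∀ l' ∈ s.T, l'.1 = l.1 → l' ∈ (lim r).T := by
    intro k l hl l' hl' e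
    obtain ⟨l'', h1, h2⟩ := h.key hl
    exact hs.cond.fn l'' (hs.T h1) l' hl' (h2.trans e.symm) ▸ h1
  refine addT_ext (addT_cond (h.hc n) hf.countable ?_
    (fun y b₀ b₁ hl => hs.cond.col y b₀ b₁ (hΔ hl)) ?_
    (fun j G hG x hx => hs.cond.i1 j G (Facts.mono hΔ j hG) x (nm.R j hx))
    (fun m hm G hG => hs.cond.mL m (nm.Md hm) G (Facts.mono hΔ _ hG))
    fun l hl => ⟨Δ, hf, Set.subset_union_right, hl, hcl.anti nm.Md⟩)
    fun j hj G hG => nm.e1 j hj G (Facts.mono hΔ j hG)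
  · rintro l hl l' (hl' | hl') e
    · exact (h.hc n).fn l (hn l hl (back n l' hl' l (hΔ hl) e)) l' hl' e
    · exact hs.cond.fn l (hΔ hl) l' (hΔ hl') e
  · intro j G hG H hH
    have hG' := Facts.mono hΔ j hG
    rcases facts_union.1 hH with hH | hH
    · by_cases hj : Free (r n) j
      · exact hs.cond.agr j G hG' H (nm.fs j hj hH)
      · simp only [Free, not_forall, not_not] at hj
        obtain ⟨m, hm, rfl⟩ := hj
        intro z a a' h1 h2
        rcases LegalW.old ((h.hc n).mL m hm H hH) h2 with hw | ho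
        · rcases h.prot hw _ n H hm hH h2 rfl with ⟨H', h3, h4⟩ | ⟨k, l, h3, h4, h5⟩
          · exact hs.cond.agr _ G hG' H' (Facts.mono hs.T _ h3) z a a' h1 h4
          · obtain ⟨l₁, f1, f2⟩ := hG
            exact absurd (back k l h3 l
              (hΔ (hcl.mem f1 ⟨m, nm.Md hm, G, z, a, f2, h1, hw, h5⟩)) rfl) h4
        · exact (hs.cond.old_agree (hs.cond.mode_old (nm.Md hm) ho) hG' h1).symm
    · exact hs.cond.agr j G hG' H (Facts.mono hΔ j hH)

end WorldsA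

/-- a finite closed part of an extension of the limit of the worlds fits late worlds -/
theorem amalg_lim {r u : ℕ → Pre M} {Γ : ℕ → Set (Lit M)} (hc : ∀ n, IsCond F (r n))
    (ha : ∀ n, Alt F (r n) (Γ n)) (hs : ∀ n, Sw F (r n) (Γ n) (u n))
    (he : ∀ n, Ext F (r (n + 1)) (u n))
    (hd : ∀ n m, n ≠ m → Disjoint (keys (Γ n)) (keys (Γ m \ (r m).T)))
    (hneg : ∀ n m, n ≤ m → ∀ l ∈ (r n).T, l.1 ∈ keys (Γ m \ (r m).T) → ∀ j G, ¬ IsFact l j G) :
    IsCond F (lim r) ∧ (∀ n, NM (r n) (lim r)) ∧ (∀ n, Γ n ⊆ (lim r).T) ∧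
      ∀ s, Ext F s (lim r) → ∀ Δ, Δ.Finite → Δ ⊆ s.T → Closed s.Md Δ →
        ∃ N, ∀ n, N ≤ n → Ext F (addT (r n) Δ) (r n) := by
  have h : WorldsA.Chain F r u Γ := ⟨hc, ha, hs, he, hd, hneg⟩
  refine ⟨h.cond, h.nm, h.sub, fun s hs' Δ hf hΔ hcl => ?_⟩
  have hev : ∀ᶠ n in Filter.atTop, ∀ l ∈ Δ ∩ (lim r).T, l ∈ (r n).T :=
    (Filter.eventually_all_finite (hf.inter_of_left _)).2 fun l hl =>
      Filter.eventually_atTop.2 hl.2
  obtain ⟨N, hN⟩ := Filter.eventually_atTop.1 hev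
  exact ⟨N, fun n hn => h.amalg hs' hΔ hf hcl fun l h1 h2 => hN n hn l ⟨h1, h2⟩⟩

end Pool.Agent.MP_6072c5_lc.H71
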